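import Pool.Agent.H4.ND.Common

/-!
# Part D of MP_57ddd5_pr: module D2S (one step of the slope recursion)
-/

open MeasureTheory ProbabilityTheory
open scoped ENNReal

namespace Pool.Agent.H35.ND

open Pool.Agent.H99.NS Pool.Agent.H22.LPP Pool.Agent.H95.INS Pool.Agent.H76.ND

theorem sgp {q : ℝ} (h0 : 0 < q) (h1 : q < 1) : 0 < sg q := by
  unfold sg
  have := Real.sqrt_pos.2 h0
  have h2 : 0 < 1 - q := by linarith
  positivity

theorem sign_aux {dx dy p : ℝ} (hp : 0 < p) : ∃ s : ℝ, (s = 1 ∨ s = -1) ∧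
    (dy - dx) ^ 2 = (|dx| / p - s * (|dy| / p)) ^ 2 * p ^ 2 := by
  have key : ∀ s : ℝ, (|dx| / p - s * (|dy| / p)) ^ 2 * p ^ 2 = (|dx| - s * |dy|) ^ 2 := by
    intro s
    field_simp
  rcases le_total 0 dx with h | h <;> rcases le_total 0 dy with h' | h'
  · refine ⟨1, Or.inl rfl, ?_⟩
    rw [key, abs_of_nonneg h, abs_of_nonneg h']; ring
  · refine ⟨-1, Or.inr rfl, ?_⟩
    rw [key, abs_of_nonneg h, abs_of_nonpos h']; ring
  · refine ⟨-1, Or.inr rfl, ?_⟩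
    rw [key, abs_of_nonpos h, abs_of_nonneg h']; ring
  · refine ⟨1, Or.inl rfl, ?_⟩
    rw [key, abs_of_nonpos h, abs_of_nonpos h']; ring

/-- The real inequality. -/
theorem d2s_real {σ F N CL CW X Y A1 A2 A3 W1 W2 TT m1 m2 m3 fa : ℝ} (hσ : 0 < σ) (hF : 0 < F)
    (hN : 1 ≤ N) (hCL : 0 < CL) (hCW : 0 < CW) (hX : 0 ≤ X) (hY : 0 ≤ Y)
    (hfa : fa ≤ F) (hm : m3 = m1 + m2)
    (h1 : W1 ≤ m1 - σ / 2 * (A1 * F) + N * F * (9 + X + Y))
    (h2 : W2 ≤ m2 - σ / 2 * (A2 * F) + CW * N ^ 2 * F)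
    (h3 : m3 - σ / 2 * (A3 * F) - CL * N * F * (1 + X) ≤ TT)
    (h4 : TT - fa ≤ W1 + W2) :
    A1 + A2 ≤ A3 + 2 / σ * ((CL + CW + 11) * N ^ 2 + (CL + CW + 11) * N * (X + Y)) := by
  have e : σ / 2 * F * (A1 + A2 - A3) ≤
      F * (CL * N * (1 + X) + 1 + N * (9 + X + Y) + CW * N ^ 2) := by
    have : σ / 2 * F * (A1 + A2 - A3) = σ / 2 * (A1 * F) + σ / 2 * (A2 * F) - σ / 2 * (A3 * F) := by
      ring
    rw [this]
    have h5 : F * (CL * N * (1 + X) + 1 + N * (9 + X + Y) + CW * N ^ 2) =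
      CL * N * F * (1 + X) + F + N * F * (9 + X + Y) + CW * N ^ 2 * F := by ring
    rw [h5]
    linarith only [hfa, hm, h1, h2, h3, h4]
  have e2 : CL * N * (1 + X) + 1 + N * (9 + X + Y) + CW * N ^ 2 ≤
      (CL + CW + 11) * N ^ 2 + (CL + CW + 11) * N * (X + Y) := by
    have hN2 : N ≤ N ^ 2 := by nlinarith only [hN]
    have g1 : CL * N ≤ CL * N ^ 2 := mul_le_mul_of_nonneg_left hN2 hCL.le
    have g2 : 0 ≤ N * X := by positivity
    have g3 : 0 ≤ N * Y := by positivity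
    have g4 : 0 ≤ CL * (N * Y) := by positivity
    have g5 : 0 ≤ CW * (N * X) := by positivity
    have g6 : 0 ≤ CW * (N * Y) := by positivity
    nlinarith only [hN, hN2, g1, g2, g3, g4, g5, g6]
  have e3 : σ / 2 * (A1 + A2 - A3) ≤
      (CL + CW + 11) * N ^ 2 + (CL + CW + 11) * N * (X + Y) := by
    refine le_trans ?_ e2
    have : F * (σ / 2 * (A1 + A2 - A3)) ≤
      F * (CL * N * (1 + X) + 1 + N * (9 + X + Y) + CW * N ^ 2) := by
      linarith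
    exact le_of_mul_le_mul_left this hF
  have e4 : A1 + A2 - A3 = 2 / σ * (σ / 2 * (A1 + A2 - A3)) := by
    field_simp
  have e5 := mul_le_mul_of_nonneg_left e3 (by positivity : 0 ≤ 2 / σ)
  linarith

theorem pf_D2S (h_WB : T_WB) (h_LW : T_LW) (h_SLP : T_SLP) : T_D2S := by
  intro q hq0 hq1
  obtain ⟨CW, hCW, hWB⟩ := h_WB q hq0 hq1
  obtain ⟨CL, hCL, hLW⟩ := h_LW q hq0 hq1
  obtain ⟨C, hC, hSLP⟩ := h_SLP q (CL + CW + 11) hq0 hq1 (by linarith)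
  have hsg := sgp hq0 hq1
  refine ⟨C, hC, ?_⟩
  intro P K0 Xc a I k i u g hK0 hXc hXca ha hak hai hiI hG hu1 hu2 hgu hNO hX
  obtain ⟨hp, hW⟩ := hNO
  have ha1 : a ≤ i := by omega
  obtain ⟨j, rfl⟩ : ∃ j, i = j + 1 := ⟨i - 1, by omega⟩
  have hj : 1 ≤ j := by omega
  have haj : a ≤ j := by omega
  have hm1 : lv a ≤ lv j := Pool.Agent.H4.ND.lv_mono haj
  have hm2 : lv j ≤ lv (j + 1) := Pool.Agent.H4.ND.lv_mono (by omega)
  have hm3 : lv (j + 1) ≤ lv (j + 1 + 1) := Pool.Agent.H4.ND.lv_mono (by omega)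
  have c2 := Pool.Agent.H4.ND.lv_real_succ (i := j + 1) (by omega)
  have c1 := Pool.Agent.H4.ND.lv_real (i := j + 1) (by omega)
  have c0 := Pool.Agent.H4.ND.lv_real (i := j) hj
  have hL : (64:ℝ) ^ j = 64 ^ (j + 1) / 64 := by rw [pow_succ]; field_simp
  rw [hL] at c0
  have hma : (lv a : ℝ) ≤ (lv j : ℝ) := by exact_mod_cast hm1
  rw [c0] at hma
  -- abbreviations
  obtain ⟨L, hLd⟩ : ∃ L : ℝ, L = 64 ^ (j + 1) := ⟨_, rfl⟩
  obtain ⟨F, hFd⟩ : ∃ F : ℝ, F = 4 ^ (j + 1) := ⟨_, rfl⟩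
  obtain ⟨p, hpd⟩ : ∃ p : ℝ, p = 16 ^ (j + 1) := ⟨_, rfl⟩
  have hL0 : 0 < L := by rw [hLd]; positivity
  have hF0 : 0 < F := by rw [hFd]; positivity
  have hp0 : 0 < p := by rw [hpd]; positivity
  have hpLF : p ^ 2 = L * F := by
    rw [hpd, hLd, hFd, ← pow_mul, mul_comm (j + 1) 2, pow_mul, ← mul_pow]
    norm_num
  obtain ⟨Θ, hΘd⟩ : ∃ Θ : ℝ, Θ = (101 / 100) ^ ds k (j + 1) := ⟨_, rfl⟩
  have hΘ1 : 1 ≤ Θ := by rw [hΘd]; exact one_le_pow₀ (by norm_num)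
  obtain ⟨X, hXd⟩ : ∃ X : ℝ, X = |((g (-lv (j + 1 + 1)) - g u : ℤ) : ℝ)| / p := ⟨_, rfl⟩
  obtain ⟨Y, hYd⟩ : ∃ Y : ℝ, Y = |((g (-lv (j + 1)) - g u : ℤ) : ℝ)| / p := ⟨_, rfl⟩
  have hX0 : 0 ≤ X := by rw [hXd]; positivity
  have hY0 : 0 ≤ Y := by rw [hYd]; positivity
  have eX : |((g (-lv (j + 1 + 1)) - g u : ℤ) : ℝ)| = X * p := by rw [hXd]; field_simp
  have eY : |((g (-lv (j + 1)) - g u : ℤ) : ℝ)| = Y * p := by rw [hYd]; field_simp
  obtain ⟨s, hs, hsq⟩ := sign_aux (dx := ((g (-lv (j + 1 + 1)) - g u : ℤ) : ℝ))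
    (dy := ((g (-lv (j + 1)) - g u : ℤ) : ℝ)) hp0
  rw [← hXd, ← hYd] at hsq
  -- slab
  have hu1' : -lv (j + 1) ≤ u := by omega
  have w1 := hG.u (j + 1) ha1 hiI (-lv (j + 1 + 1)) (-lv (j + 1)) g le_rfl (by omega) le_rfl
    (fun r h1 h2 => hp r h1 (by omega))
  have w2 := hWB P K0 a k j u g hK0 ha hak haj hu1 hu2
    (fun r h1 h2 => hp r (by omega) h2) hgu hG.uc (fun m h1 h2 => hG.u m h1 (by omega))
  have hreach : Reach (-lv (j + 1 + 1), g (-lv (j + 1 + 1))) (u, g u) := by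
    have := path_lip hp le_rfl (by omega : -lv (j + 1 + 1) ≤ u) le_rfl
    exact ⟨this.1, this.2⟩
  have hl := hLW P K0 Xc a k (j + 1) (u, g u) (g (-lv (j + 1 + 1))) hK0 hXc hXca ha hak ha1
    (by simp only; omega) (by simp only; omega) hgu hX hreach hG.il
    (fun m h1 h2 => hG.l m h1 (by omega))
  simp only at hl
  have hadd := P.add (-lv (j + 1 + 1)) (-lv (j + 1)) u g (by omega) hu1'
  -- rewrite the three bounds
  have hmx : max |(g (-lv (j + 1 + 1)) : ℝ)| |(g (-lv (j + 1)) : ℝ)| / 16 ^ max k (j + 1) ≤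
      8 + X + Y := by
    rw [div_le_iff₀ (by positivity)]
    have m1 : (16:ℝ) ^ k ≤ 16 ^ max k (j + 1) := pow_le_pow_right₀ (by norm_num) (le_max_left _ _)
    have m2 : p ≤ 16 ^ max k (j + 1) := by
      rw [hpd]; exact pow_le_pow_right₀ (by norm_num) (le_max_right _ _)
    have m3 := mul_le_mul_of_nonneg_left m2 hX0
    have m4 := mul_le_mul_of_nonneg_left m2 hY0
    have a1 := abs_sub_abs_le_abs_sub (g (-lv (j + 1 + 1)) : ℝ) (g u)
    have a2 := abs_sub_abs_le_abs_sub (g (-lv (j + 1)) : ℝ) (g u)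
    push_cast at eX eY
    rw [eX] at a1
    rw [eY] at a2
    have m5 : 0 ≤ X * (16:ℝ) ^ max k (j + 1) := by positivity
    have m6 : 0 ≤ Y * (16:ℝ) ^ max k (j + 1) := by positivity
    apply max_le <;> nlinarith only [hgu, m1, m3, a1, m6, m4, a2, m5]
  have b1 : P.W (-lv (j + 1 + 1)) (-lv (j + 1)) g ≤ mu q * (63 / 2 * L) -
      sg q / 2 * ((X - s * Y) ^ 2 / (31501 / 1000) * F) + (K0 * Θ) * F * (9 + X + Y) := by
    unfold sp al at w1
    rw [← hΘd, ← hFd] at w1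
    have t1 : ((-lv (j + 1) - -lv (j + 1 + 1) : ℤ) : ℝ) = 63 / 2 * L := by
      push_cast
      rw [c2, c1, hLd]; ring
    have t2 : ((g (-lv (j + 1)) - g (-lv (j + 1 + 1)) : ℤ) : ℝ) ^ 2 =
        (X - s * Y) ^ 2 * (L * F) := by
      rw [← hpLF, ← hsq]
      congr 1
      push_cast
      ring
    rw [t1, t2, ← hLd] at w1
    have t3 : sg q / 2 * ((X - s * Y) ^ 2 * (L * F)) / (63 / 2 * L + L / 1000) =
        sg q / 2 * ((X - s * Y) ^ 2 / (31501 / 1000) * F) := by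
      field_simp
      ring
    rw [t3] at w1
    have t4 : K0 * Θ * F * (1 + max |(g (-lv (j + 1 + 1)) : ℝ)| |(g (-lv (j + 1)) : ℝ)| /
        16 ^ max k (j + 1)) ≤ K0 * Θ * F * (9 + X + Y) :=
      mul_le_mul_of_nonneg_left (by linarith only [hmx]) (by positivity)
    linarith only [w1, t4]
  have b2 : P.W (-lv (j + 1)) u g ≤ mu q * ((u : ℝ) + L / 2) -
      sg q / 2 * (Y ^ 2 / (1001 / 1000 * (65 / 128)) * F) + CW * (K0 * Θ) ^ 2 * F := by
    have t1 : ((u + lv (j + 1) : ℤ) : ℝ) = (u : ℝ) + L / 2 := by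
      push_cast
      rw [c1, hLd]
    have t2 : ((g (-lv (j + 1)) - g u : ℤ) : ℝ) ^ 2 = Y ^ 2 * (L * F) := by
      rw [← hpLF, ← sq_abs, eY]; ring
    rw [t1, t2] at w2
    have t3 : (1001 / 1000 * ((lv (j + 1) + lv a : ℤ) : ℝ)) ≤ 1001 / 1000 * (65 / 128) * L := by
      push_cast
      rw [c1, hLd]
      linarith only [hma]
    have t4 : 0 < 1001 / 1000 * ((lv (j + 1) + lv a : ℤ) : ℝ) := by
      have h5 := Pool.Agent.H4.ND.lv_pos (j + 1)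
      have h6 := Pool.Agent.H4.ND.lv_pos a
      have : (0:ℝ) < ((lv (j + 1) + lv a : ℤ) : ℝ) := by exact_mod_cast (by omega)
      linarith only [this]
    have t5 : sg q / 2 * (Y ^ 2 * (L * F)) / (1001 / 1000 * (65 / 128) * L) ≤
        sg q / 2 * (Y ^ 2 * (L * F)) / (1001 / 1000 * ((lv (j + 1) + lv a : ℤ) : ℝ)) :=
      div_le_div_of_nonneg_left (by positivity) t4 t3
    have t6 : sg q / 2 * (Y ^ 2 * (L * F)) / (1001 / 1000 * (65 / 128) * L) =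
        sg q / 2 * (Y ^ 2 / (1001 / 1000 * (65 / 128)) * F) := by
      field_simp
    have t7 : CW * K0 ^ 2 * (101 / 100) ^ (2 * ds k j) * 4 ^ j ≤ CW * (K0 * Θ) ^ 2 * F := by
      have g1 : ((101:ℝ) / 100) ^ (2 * ds k j) ≤ 4 * Θ ^ 2 := by
        have : ds k j ≤ ds k (j + 1) + 1 := by unfold ds; omega
        have h5 : ((101:ℝ) / 100) ^ (2 * ds k j) ≤ (101 / 100) ^ (2 * (ds k (j + 1) + 1)) :=
          pow_le_pow_right₀ (by norm_num) (by omega)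
        refine h5.trans ?_
        rw [hΘd, mul_add, pow_add, mul_comm 2 (ds k (j + 1)), pow_mul]
        have : (0:ℝ) ≤ ((101 / 100) ^ ds k (j + 1)) ^ 2 := by positivity
        nlinarith only []
      have g2 : (4:ℝ) ^ j = F / 4 := by rw [hFd, pow_succ]; field_simp
      rw [g2]
      have g3 : 0 ≤ CW * K0 ^ 2 * (F / 4) := by positivity
      have g4 := mul_le_mul_of_nonneg_left g1 g3
      have g5 : CW * (K0 * Θ) ^ 2 * F = CW * K0 ^ 2 * (F / 4) * (4 * Θ ^ 2) := by ring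
      rw [g5]
      linarith only [g4]
    linarith only [w2, t5, t6, t7]
  have b3 : mu q * ((u : ℝ) + 32 * L) - sg q / 2 * (X ^ 2 / (32 - 1 / 128) * F) -
      CL * (K0 * Θ) * F * (1 + X) ≤ P.TT (-lv (j + 1 + 1), g (-lv (j + 1 + 1))) (u, g u) := by
    rw [← hpd, ← hXd, ← hΘd, ← hFd] at hl
    have t1 : ((u + lv (j + 1 + 1) : ℤ) : ℝ) = (u : ℝ) + 32 * L := by
      push_cast
      rw [c2, hLd]
    have t2 : ((g (-lv (j + 1 + 1)) - g u : ℤ) : ℝ) ^ 2 = X ^ 2 * (L * F) := by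
      rw [← hpLF, ← sq_abs, eX]; ring
    rw [t1, t2] at hl
    have t3 : (32 - 1 / 128) * L ≤ ((lv (j + 1 + 1) - lv a : ℤ) : ℝ) := by
      push_cast
      rw [c2, hLd]
      linarith only [hma]
    have t5 : sg q / 2 * (X ^ 2 * (L * F)) / ((lv (j + 1 + 1) - lv a : ℤ) : ℝ) ≤
        sg q / 2 * (X ^ 2 * (L * F)) / ((32 - 1 / 128) * L) :=
      div_le_div_of_nonneg_left (by positivity) (by linarith only [hL0]) t3
    have t6 : sg q / 2 * (X ^ 2 * (L * F)) / ((32 - 1 / 128) * L) =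
        sg q / 2 * (X ^ 2 / (32 - 1 / 128) * F) := by
      field_simp
    have t7 : CL * K0 * Θ * F * (1 + X) = CL * (K0 * Θ) * F * (1 + X) := by ring
    linarith only [hl, t5, t6]
  have hN1 : 1 ≤ K0 * Θ := by nlinarith only [hK0, hΘ1, hq0, hq1]
  have hfa : (4:ℝ) ^ a ≤ F := by rw [hFd]; exact pow_le_pow_right₀ (by norm_num) ha1
  have hfin := d2s_real (σ := sg q) hsg hF0 hN1 hCL hCW hX0 hY0 hfa
    (m1 := mu q * (63 / 2 * L)) (m2 := mu q * ((u : ℝ) + L / 2))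
    (m3 := mu q * ((u : ℝ) + 32 * L)) (by ring) b1 b2 b3 (by linarith only [hW, hadd])
  have hres := hSLP K0 Θ X Y hK0 hΘ1 hX0 hY0 s hs (by
    refine hfin.trans (le_of_eq ?_)
    ring)
  rw [← hpd, ← hYd, ← hΘd]
  have hX16 : |((g (-lv (j + 1 + 1)) - g u : ℤ) : ℝ)| / 16 ^ (j + 1 + 1) = X / 16 := by
    rw [eX, pow_succ, ← hpd]; field_simp
  rw [hX16]
  linarith only [hres]

end Pool.Agent.H35.ND
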