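import Pool.Agent.H76.ND.Targets2

/-!
# MP_57ddd5_pr, Part D: KG2 (the deterministic step: a nonzero product of differences)
-/

open MeasureTheory ProbabilityTheory
open scoped ENNReal

namespace Pool.Agent.H35.ND

open Pool.Agent.H99.NS Pool.Agent.H22.LPP Pool.Agent.H95.INS Pool.Agent.H76.ND
open Pool.Agent.H97.NF (PEnv eA eB PN glue ff Infx domN tile kbox rk quad OnGeo)
open Pool.Agent.H95.ND (Sml I_N PK JCs goodAt zc win Xf RGG PALMs)

theorem kg_two_lv (a : ℕ) (ha : 1 ≤ a) : 2 * lv a = 64 ^ a := by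
  obtain ⟨b, rfl⟩ : ∃ b, a = b + 1 := ⟨a - 1, by omega⟩
  unfold lv
  rw [Nat.add_sub_cancel, pow_succ]; ring

theorem kg_eight (c : Cst) (Xc : ℤ) (k : ℕ) (hk : 1 ≤ k) :
    8 * (dk c Xc k).n = 64 ^ k ∧ 256 * (dk c Xc k).n = lv (k + 1) := by
  obtain ⟨b, rfl⟩ : ∃ b, k = b + 1 := ⟨k - 1, by omega⟩
  have : (dk c Xc (b + 1)).n = 8 * 64 ^ b := rfl
  rw [this]
  unfold lv
  rw [Nat.add_sub_cancel, pow_succ]
  constructor <;> ring

theorem kg_near_sh (ω : Env) (a n : ℕ) (z : ℤ × ℤ) (g : ℤ → ℤ)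
    (h : Near ω (0, 0) (eN n) 0 g) :
    Near (shiftE (cen a z) ω) ((0, 0) - cen a z) (eN n - cen a z) 0 (sh a z g) := by
  obtain ⟨h1, h2⟩ := h
  have h3 := conn_shift (-cen a z) h1
  refine ⟨?_, ?_⟩
  · have e : (fun r => g (r - (-cen a z).1) + (-cen a z).2) = sh a z g := by
      funext r
      unfold sh
      simp only [Prod.fst_neg, Prod.snd_neg, sub_neg_eq_add]
      ring
    rw [e] at h3
    simpa only [sub_eq_add_neg] using h3
  · rw [T_shift, wt_shift, sub_add_cancel, sub_add_cancel]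
    have e : (fun r => sh a z g (r - (cen a z).1) + (cen a z).2) = g := by
      funext r
      unfold sh
      rw [sub_add_cancel, sub_add_cancel]
    rw [e]
    simpa only [Prod.fst_sub, sub_add_cancel] using h2

theorem kg_tile_sub (c : Cst) (Xc : ℤ) (a k : ℕ) (z : ℤ × ℤ) (ha : 1 ≤ a) (hak : a ≤ k)
    (hA : 200 ≤ c.A) (x : Site) (hx : x + cen a z ∈ tile a z) : x ∈ Bx (dk c Xc k) := by
  obtain ⟨h1, h2, h3, h4⟩ := hx
  simp only [cen, Prod.fst_add, Prod.snd_add] at h1 h2 h3 h4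
  have e8 := (kg_eight c Xc k (by omega)).1
  have hp : (64:ℤ) ^ a ≤ 64 ^ k := pow_le_pow_right₀ (by norm_num) hak
  have hp2 : (16:ℤ) ^ a ≤ 16 ^ k := pow_le_pow_right₀ (by norm_num) hak
  have hp3 : (0:ℤ) < 16 ^ k := by positivity
  have e1 : (2 * z.1 - 1) * 64 ^ a = 2 * (64 ^ a * z.1) - 64 ^ a := by ring
  have e2 : (2 * z.1 + 1) * 64 ^ a = 2 * (64 ^ a * z.1) + 64 ^ a := by ring
  have e3 : (2 * z.2 - 1) * 16 ^ a = 2 * (16 ^ a * z.2) - 16 ^ a := by ring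
  have e4 : (2 * z.2 + 1) * 16 ^ a = 2 * (16 ^ a * z.2) + 16 ^ a := by ring
  rw [e1] at h1
  rw [e2] at h2
  rw [e3] at h3
  rw [e4] at h4
  have hAw : (16:ℤ) ^ k ≤ (dk c Xc k).A * (dk c Xc k).w := by
    have : (dk c Xc k).A * (dk c Xc k).w = c.A * 16 ^ k := rfl
    rw [this]
    nlinarith
  refine ⟨by linarith, by linarith, ?_⟩
  rw [abs_lt]
  constructor <;> linarith

theorem kg_ends (c : Cst) (Xc : ℤ) (a I n k : ℕ) (z : ℤ × ℤ) (ha : 1 ≤ a) (hak : a ≤ k)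
    (hkI : k ≤ I) (hz1 : lv (I + 1) ≤ 64 ^ a * z.1) (hz2 : 64 ^ a * z.1 + lv (I + 1) ≤ 2 * n) :
    Ends (dk c Xc k) ((0, 0) - cen a z) (eN n - cen a z) := by
  have e1 := (kg_eight c Xc k (by omega)).2
  have hlv : lv (k + 1) ≤ lv (I + 1) := by
    unfold lv
    have : (64:ℤ) ^ (k + 1 - 1) ≤ 64 ^ (I + 1 - 1) := pow_le_pow_right₀ (by norm_num) (by omega)
    linarith
  refine ⟨?_, ?_, ?_, ?_⟩
  · simp only [cen, Prod.fst_sub]
    linarith
  · simp only [cen, eN, Prod.fst_sub]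
    linarith
  · simp only [cen, Prod.fst_sub, Prod.snd_sub]
    obtain ⟨b, rfl⟩ : ∃ b, a = b + 1 := ⟨a - 1, by omega⟩
    rw [pow_succ, pow_succ]
    refine ⟨-(64 ^ b * 32 * z.1) - 16 ^ b * 8 * z.2, ?_⟩
    ring
  · have h : Reach ((0, 0) : Site) (eN n) := by
      unfold Reach eN
      refine ⟨by simp, ?_⟩
      simp
    have := (reach_shift (-cen a z)).2 h
    simpa only [sub_eq_add_neg] using this

theorem kg_one (h_TC0 : T_TC0) (h_DIF : T_DIF) (h_RGS : T_RGS) {q C1 C2 : ℝ}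
    (hD1 : ∀ (c : Cst) (Xc : ℤ) (a I k : ℕ) (ω : Env), c.q = q → 1 ≤ c.K0 →
      C1 * c.K0 ^ 2 ≤ c.K →
      16 ≤ Xc → 4 * Xc ≤ 4 ^ a → 1 ≤ a → a ≤ k → k ≤ I → GN c.q c.K0 Xc a I k ω →
      O1 (dk c Xc k) ω ∧ O2 (dk c Xc k) ω ∧
        LBd (dk c Xc k) ω (-(256 * (dk c Xc k).n)) (256 * (dk c Xc k).n))
    (hGD : Pool.Agent.H95.ND.GDs q C2)
    (δ Cg : ℝ) (p₀ : ℝ≥0∞) (k₀ : ℕ) (c : Cst) (Xc : ℤ) (a I m n k : ℕ) (z : ℤ × ℤ)
    (hPK : PK q δ Cg c k₀ p₀) (hC1 : C1 ≤ Cg) (hC2 : C2 ≤ Cg) (hk0 : 1 ≤ k₀) (hka : k₀ ≤ a)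
    (hXA : 16 * c.A ≤ Xc) (hX4 : 4 * Xc ≤ 4 ^ a) (hak : a ≤ k) (hkm : k ≤ a + m)
    (hmI : a + m ≤ I) (hz1 : lv (I + 1) ≤ 64 ^ a * z.1)
    (hz2 : 64 ^ a * z.1 + lv (I + 1) ≤ 2 * n) (ω ω' : Env)
    (hag : ∀ x ∉ tile a z, ω x = ω' x)
    (hg : good c Xc a I k (shiftE (cen a z) ω)) (hg' : good c Xc a I k (shiftE (cen a z) ω'))
    (hrx : ∀ g, Near ω (0, 0) (eN n) 0 g → Rlx Xc a (0, 0) (eN n) g)
    (hdt : ∀ g, Near ω (0, 0) (eN n) 0 g → ∀ t1 : ℤ, -lv a ≤ t1 → t1 ≤ lv a →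
      (t1 + (cen a z).1, g (t1 + (cen a z).1)) ∈ tile a z →
      (3 / 8) ^ (I - a - m) * Dt I t1 (sh a z g) ≤ 1)
    (hRF : RF (dk c Xc k) (shiftE (cen a z) ω) ((0, 0) - cen a z) (eN n - cen a z))
    (hlt : ff n ω' < ff n ω) :
    Good (dk c Xc k) (shiftE (cen a z) ω) ((0, 0) - cen a z) (eN n - cen a z) ∧
      ff n ω - ff n ω' ≤ (2 * c.K * (1 + c.B) + sg q * c.B ^ 2) * 4 ^ k := by
  have ha : 1 ≤ a := hk0.trans hka
  have hkI : k ≤ I := hkm.trans hmI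
  have hA := hPK.A1
  have hX16 : 16 ≤ Xc := by linarith
  have hR0 : Reach ((0, 0) : Site) (eN n) := by
    unfold Reach eN
    refine ⟨by simp, ?_⟩
    simp
  obtain ⟨g, hgc, hgT, _⟩ := T_attained ω hR0
  have hN : Near ω (0, 0) (eN n) 0 g := ⟨hgc, by rw [hgT]; linarith⟩
  obtain ⟨r, hr0, hr1, hr2⟩ := (h_TC0 a n z ω ω' hag).1 hlt g hN
  have hN' := kg_near_sh ω a n z g hN
  have hr2' := hr2
  obtain ⟨hx1, hx2, hx3, hx4⟩ := hr2'
  simp only at hx1 hx2 hx3 hx4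
  have e1 : (2 * z.1 - 1) * 64 ^ a = 2 * (64 ^ a * z.1) - 64 ^ a := by ring
  have e2 : (2 * z.1 + 1) * 64 ^ a = 2 * (64 ^ a * z.1) + 64 ^ a := by ring
  have e3 : (2 * z.2 - 1) * 16 ^ a = 2 * (16 ^ a * z.2) - 16 ^ a := by ring
  have e4 : (2 * z.2 + 1) * 16 ^ a = 2 * (16 ^ a * z.2) + 16 ^ a := by ring
  rw [e1] at hx1
  rw [e2] at hx2
  rw [e3] at hx3
  rw [e4] at hx4
  have hlva := kg_two_lv a ha
  set t1 : ℤ := r - (cen a z).1 with ht1
  have hc1 : (cen a z).1 = 64 ^ a * z.1 := rfl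
  have hc2 : (cen a z).2 = 16 ^ a * z.2 := rfl
  have ht1a : -lv a ≤ t1 := by rw [ht1, hc1]; linarith
  have ht1b : t1 ≤ lv a := by rw [ht1, hc1]; linarith
  have ht1r : t1 + (cen a z).1 = r := by rw [ht1]; ring
  have hRG : RG Xc a I t1 (sh a z g) := by
    refine h_RGS Xc a I (0, 0) (eN n) (cen a z) t1 g ha (hak.trans hkI) (hrx g hN) ?_ ?_ ht1a ht1b
    · simp only [hc1]; linarith
    · simp only [hc1, eN]; linarith
  have hp2 : (16:ℤ) ^ a ≤ 16 ^ k := pow_le_pow_right₀ (by norm_num) hak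
  have hp3 : (0:ℤ) < 16 ^ k := by positivity
  have hst : |(sh a z g t1 : ℝ)| ≤ 8 * 16 ^ k := by
    have h1 : |sh a z g t1| ≤ 8 * 16 ^ k := by
      unfold sh
      rw [ht1r, hc2, abs_le]
      constructor <;> linarith
    exact_mod_cast h1
  have hDt0 : 0 ≤ Dt I t1 (sh a z g) := by
    unfold Dt; positivity
  have hdt1 : (3 / 8) ^ (I - k) * Dt I t1 (sh a z g) ≤ 1 := by
    refine le_trans (mul_le_mul_of_nonneg_right ?_ hDt0)
      (hdt g hN t1 ht1a ht1b (by rw [ht1r]; exact hr2))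
    exact pow_le_pow_of_le_one (by norm_num) (by norm_num) (by omega)
  have hK0 : 0 ≤ c.K0 := by linarith [hPK.K01]
  have hends := kg_ends c Xc a I n k z ha hak hkI hz1 hz2
  have hK1 : C1 * c.K0 ^ 2 ≤ c.K :=
    (mul_le_mul_of_nonneg_right hC1 (by positivity)).trans hPK.KK
  have hK2 : C2 * c.K0 ^ 2 ≤ c.K :=
    (mul_le_mul_of_nonneg_right hC2 (by positivity)).trans hPK.KK
  have hB2 : C2 * c.K0 ≤ c.B := (mul_le_mul_of_nonneg_right hC2 hK0).trans hPK.KB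
  obtain ⟨hGood, hm1, hm2⟩ := hGD c Xc a I k (shiftE (cen a z) ω) ((0, 0) - cen a z)
    (eN n - cen a z) t1 (sh a z g) hPK.hq hPK.K01 hK2 hB2 (by linarith [hPK.H1]) hX16 hX4 ha hak
    hkI (by simp only [Prod.fst_sub, hc1]; linarith)
    (by simp only [Prod.fst_sub, hc1, eN]; linarith) hg hRF hN' ht1a ht1b hst hRG hdt1
  refine ⟨hGood, ?_⟩
  have h4k : (4:ℤ) ^ a ≤ 4 ^ k := pow_le_pow_right₀ (by norm_num) hak
  have hOk : (dk c Xc k).Ok := hPK.ok Xc k (hka.trans hak) hXA (by linarith)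
  have hAg : Agree (dk c Xc k) (shiftE (cen a z) ω) (shiftE (cen a z) ω') := by
    intro x hx
    refine hag (x + cen a z) fun h => hx ?_
    exact kg_tile_sub c Xc a k z ha hak hA x h
  have hO1 := (hD1 c Xc a I k _ hPK.hq hPK.K01 hK1 hX16 hX4 ha hak hkI hg.1).1
  have hLB := (hD1 c Xc a I k _ hPK.hq hPK.K01 hK1 hX16 hX4 ha hak hkI hg'.1).2.2
  have e256 := (kg_eight c Xc k (by omega)).2
  have hDw : ((dk c Xc k).w : ℝ) = 16 ^ k := by
    have : (dk c Xc k).w = 16 ^ k := rfl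
    rw [this]; push_cast; ring
  have := h_DIF (dk c Xc k) (shiftE (cen a z) ω) (shiftE (cen a z) ω') ((0, 0) - cen a z)
    (eN n - cen a z) (sh a z g) hOk hends hAg hO1 hLB hN'
    (by rw [e256, hDw]; exact hm1) (by rw [e256, hDw]; exact hm2)
  rw [T_shift, T_shift, sub_add_cancel, sub_add_cancel] at this
  have hq : (dk c Xc k).q = q := hPK.hq
  have hq2 : (dk c Xc k).K = c.K := rfl
  have hq3 : (dk c Xc k).B = c.B := rfl
  have hq4 : (dk c Xc k).f = 4 ^ k := rfl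
  rw [hq, hq2, hq3, hq4] at this
  exact this

theorem pf_KG2 (h_TC0 : T_TC0) (h_D1 : T_D1) (h_GD : T_GD) (h_DIF : T_DIF) (h_RGS : T_RGS)
    (h_MEG : T_MEG) : T_KG2 := by
  intro q hq0 hq1
  obtain ⟨C1, hC1, hD1⟩ := h_D1 q hq0 hq1
  obtain ⟨C2, hC2, hGD⟩ := h_GD q hq0 hq1
  refine ⟨max C1 C2, lt_max_of_lt_left hC1, ?_⟩
  intro δ Cg p₀ k₀ c Xc a I m n k z F hPK hCg hk0 hka hXA hX4 hak hkm hmI hz1 hz2 hR hJ hmin
    h01 h23
  have ha : 1 ≤ a := hk0.trans hka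
  have hkI : k ≤ I := hkm.trans hmI
  have hA := hPK.A1
  have hends := kg_ends c Xc a I n k z ha hak hkI hz1 hz2
  have key := kg_one h_TC0 h_DIF h_RGS hD1 hGD δ Cg p₀ k₀ c Xc a I m n k z hPK
    ((le_max_left _ _).trans hCg) ((le_max_right _ _).trans hCg) hk0 hka hXA hX4 hak hkm hmI
    hz1 hz2
  have hn0 : 0 ≤ (dk c Xc k).n := by
    have : (dk c Xc k).n = 8 * 64 ^ (k - 1) := rfl
    rw [this]; positivity
  have hM := (h_MEG (dk c Xc k) ((0, 0) - cen a z) (eN n - cen a z) hends.re hn0).2.2.2.2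
  -- one pair
  have pair : ∀ (l l' : Fin 4), (∀ x ∉ tile a z, X4 (tile a z) l F x = X4 (tile a z) l' F x) →
      RF (dk c Xc k) (shiftE (cen a z) (X4 (tile a z) l F)) ((0, 0) - cen a z)
        (eN n - cen a z) → ff n (X4 (tile a z) l F) ≠ ff n (X4 (tile a z) l' F) →
      Good (dk c Xc k) (shiftE (cen a z) (X4 (tile a z) l F)) ((0, 0) - cen a z)
        (eN n - cen a z) ∧
      |ff n (X4 (tile a z) l F) - ff n (X4 (tile a z) l' F)| ≤
        (2 * c.K * (1 + c.B) + sg q * c.B ^ 2) * 4 ^ k := by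
    intro l l' hag hRF hne
    have hAg : Agree (dk c Xc k) (shiftE (cen a z) (X4 (tile a z) l F))
        (shiftE (cen a z) (X4 (tile a z) l' F)) := by
      intro x hx
      refine hag (x + cen a z) fun h => hx ?_
      exact kg_tile_sub c Xc a k z ha hak hA x h
    obtain ⟨hM1, hM2, hM3⟩ := hM _ _ hAg
    rcases lt_or_gt_of_ne hne with h | h
    · have := key _ _ (fun x hx => (hag x hx).symm) (hJ l') (hJ l) (hR.rx l') (hR.dt l')
        (hM2.1 hRF) h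
      refine ⟨hM3.2 this.1, ?_⟩
      rw [abs_sub_comm, abs_of_nonneg (by linarith)]
      exact this.2
    · have := key _ _ hag (hJ l) (hJ l') (hR.rx l) (hR.dt l) hRF h
      refine ⟨this.1, ?_⟩
      rw [abs_of_nonneg (by linarith)]
      exact this.2
  have a01 : ∀ x ∉ tile a z, X4 (tile a z) 0 F x = X4 (tile a z) 1 F x := by
    intro x hx
    simp [X4, eA, Pool.Agent.H97.NF.glue_of_notMem _ _ hx]
  have a23 : ∀ x ∉ tile a z, X4 (tile a z) 2 F x = X4 (tile a z) 3 F x := by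
    intro x hx
    simp [X4, eB, Pool.Agent.H97.NF.glue_of_notMem _ _ hx]
  have x0 : X4 (tile a z) 0 F = eA F.1 := by simp [X4]
  have x2 : X4 (tile a z) 2 F = eB F.1 := by simp [X4]
  have p1 := pair 0 1 a01 (by rw [x0]; exact (hR.rf k hak hkI).1) h01
  have p2 := pair 2 3 a23 (by rw [x2]; exact (hR.rf k hak hkI).2) h23
  refine ⟨⟨hJ, hmin, ?_, ?_⟩, p1.2, p2.2⟩
  · have := p1.1
    rw [x0] at this
    exact this
  · have := p2.1
    rw [x2] at this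
    exact this

end Pool.Agent.H35.ND
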