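import Pool.Agent.H76.ND.Targets2

/-!
# MP_57ddd5_pr, Part D: KG4 (from good outsides to influences)
-/

open MeasureTheory ProbabilityTheory
open scoped ENNReal

namespace Pool.Agent.H35.ND

open Pool.Agent.H99.NS Pool.Agent.H22.LPP Pool.Agent.H95.INS Pool.Agent.H76.ND
open Pool.Agent.H97.NF (PEnv eA eB PN glue ff Infx domN tile kbox rk quad OnGeo glueP
  glue_of_mem glue_of_notMem measurable_eA measurable_eB mp_gluePN measurable_glue pairLaw)

/-- Translation of a pair of environments. -/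
def shP (ζ : Site) (E : PEnv) : PEnv := fun x => E (x + ζ)

theorem mp_shP (q r : ℝ) (ζ : Site) :
    MeasurePreserving (shP ζ) (PN q (fun _ => r)) (PN q (fun _ => r)) := by
  refine ⟨by unfold shP; fun_prop, ?_⟩
  unfold PN shP
  exact Measure.map_infinitePi_infinitePi_of_inj (P := fun _ : Site => pairLaw q r)
    (add_left_injective ζ)

theorem eA_shP (ζ : Site) (E : PEnv) : eA (shP ζ E) = shiftE ζ (eA E) := rfl
theorem eB_shP (ζ : Site) (E : PEnv) : eB (shP ζ E) = shiftE ζ (eB E) := rfl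

theorem splice_shift_A (D : Dat) (ζ : Site) (E E' : PEnv) :
    splice (Bx D) (eA (shP ζ E')) (shiftE ζ (eA E)) = shiftE ζ (eA (glue (BxAt D ζ) E E')) := by
  funext x
  by_cases hx : x ∈ Bx D
  · have hx' : x + ζ ∈ BxAt D ζ := by
      show x + ζ - ζ ∈ Bx D
      rwa [add_sub_cancel_right]
    rw [splice_of_mem _ _ hx]
    show (E' (x + ζ)).1 = (glue (BxAt D ζ) E E' (x + ζ)).1
    rw [glue_of_mem _ _ hx']
  · have hx' : x + ζ ∉ BxAt D ζ := by
      show ¬ (x + ζ - ζ ∈ Bx D)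
      rwa [add_sub_cancel_right]
    rw [splice_of_not_mem _ _ hx]
    show (E (x + ζ)).1 = (glue (BxAt D ζ) E E' (x + ζ)).1
    rw [glue_of_notMem _ _ hx']

theorem splice_shift_B (D : Dat) (ζ : Site) (E E' : PEnv) :
    splice (Bx D) (eB (shP ζ E')) (shiftE ζ (eB E)) = shiftE ζ (eB (glue (BxAt D ζ) E E')) := by
  funext x
  by_cases hx : x ∈ Bx D
  · have hx' : x + ζ ∈ BxAt D ζ := by
      show x + ζ - ζ ∈ Bx D
      rwa [add_sub_cancel_right]
    rw [splice_of_mem _ _ hx]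
    show (E' (x + ζ)).2 = (glue (BxAt D ζ) E E' (x + ζ)).2
    rw [glue_of_mem _ _ hx']
  · have hx' : x + ζ ∉ BxAt D ζ := by
      show ¬ (x + ζ - ζ ∈ Bx D)
      rwa [add_sub_cancel_right]
    rw [splice_of_not_mem _ _ hx]
    show (E (x + ζ)).2 = (glue (BxAt D ζ) E E' (x + ζ)).2
    rw [glue_of_notMem _ _ hx']

/-- The two geodesics coincide at the level `s` and are close to the centre. -/
def UU (n : ℕ) (ζ : Site) (R : ℤ) (s : ℤ) : Set PEnv :=
  {P | |Lam (eA P) (0, 0) (eN n) s - ζ.2| < R ∧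
    Lam (eA P) (0, 0) (eN n) s = Lam (eB P) (0, 0) (eN n) s}

theorem measurableSet_UU (h_LAMM : B_LAMM) (n : ℕ) (ζ : Site) (R s : ℤ) :
    MeasurableSet (UU n ζ R s) := by
  have hA : Measurable (fun P : PEnv => Lam (eA P) (0, 0) (eN n) s) :=
    ((h_LAMM (0, 0) (eN n) s).2.1).comp measurable_eA
  have hB : Measurable (fun P : PEnv => Lam (eB P) (0, 0) (eN n) s) :=
    ((h_LAMM (0, 0) (eN n) s).2.1).comp measurable_eB
  have h2 : MeasurableSet {P : PEnv | Lam (eA P) (0, 0) (eN n) s = Lam (eB P) (0, 0) (eN n) s} :=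
    measurableSet_eq_fun hA hB
  have h1 : MeasurableSet {P : PEnv | |Lam (eA P) (0, 0) (eN n) s - ζ.2| < R} :=
    hA (MeasurableSet.of_discrete (s := {y : ℤ | |y - ζ.2| < R}))
  exact h1.inter h2

theorem reach0 (n : ℕ) : Reach ((0, 0) : Site) (eN n) := by
  unfold Reach eN
  refine ⟨by simp, ?_⟩
  simp

theorem onGeo_lam (h_LAM : B_LAM) (n : ℕ) (ω : Env) (s : ℤ) (h0 : 0 < s) (h1 : s < 2 * n) :
    (s, Lam ω (0, 0) (eN n) s) ∈ domN n ∧ OnGeo n ω (s, Lam ω (0, 0) (eN n) s) := by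
  obtain ⟨⟨hc, hw⟩, _⟩ := h_LAM ω (0, 0) (eN n) (reach0 n)
  set g := Lam ω (0, 0) (eN n) with hg
  have hr1 : Reach (0, 0) (s, g s) := by
    have := hc.reach_mid (a := 0) (b := s) le_rfl h0.le (by simp only [eN]; omega)
    have h3 : g 0 = 0 := hc.2.1
    rwa [h3] at this
  have hr2 : Reach (s, g s) (eN n) := by
    have := hc.reach_mid (a := s) (b := 2 * n) h0.le h1.le (by simp only [eN]; omega)
    have h3 : g (2 * n) = 0 := hc.2.2
    rwa [h3] at this
  refine ⟨?_, ?_⟩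
  · have a1 := hr1.1
    have a2 := hr2.1
    have a3 := hr1.2
    simp only [eN, sub_zero] at a1 a2 a3
    have a4 : |g s| ≤ 2 * n - s := by
      rwa [zero_sub, abs_neg] at a2
    have a5 := a1
    have a6 := a4
    rw [abs_le] at a5 a6
    unfold domN
    rw [Finset.mem_filter, Finset.mem_product, Finset.mem_Icc, Finset.mem_Icc]
    refine ⟨⟨⟨by simp only; omega, by simp only; omega⟩, ⟨by simp only; omega,
      by simp only; omega⟩⟩, a1, a4, ?_⟩
    simp only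
    exact Int.even_iff.1 a3
  · unfold OnGeo
    refine le_antisymm (T_superadd ω hr1 hr2) ?_
    have e1 : T ω (0, 0) (2 * (n:ℤ), 0) = wt ω 0 (2 * n) g := hw.symm
    rw [e1, wt_add ω h0.le h1.le]
    refine add_le_add ?_ ?_
    · exact le_T ω (u := (0, 0)) (v := (s, g s)) h0.le
        (hc.left (t := s) (by simp only [eN]; omega))
    · exact le_T ω (u := (s, g s)) (v := (2 * (n:ℤ), 0)) h1.le (hc.right (s := s) h0.le)

open Classical in
theorem UU_sub (h_LAM : B_LAM) (n : ℕ) (ζ : Site) (R s : ℤ) (h0 : 0 < s) (h1 : s < 2 * n) :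
    UU n ζ R s ⊆ ⋃ x ∈ ((domN n).filter (fun x => |x.2 - ζ.2| < R)).filter (fun x => x.1 = s),
      {P : PEnv | OnGeo n (eA P) x ∧ OnGeo n (eB P) x} := by
  intro P hP
  obtain ⟨hP1, hP2⟩ := hP
  obtain ⟨a1, a2⟩ := onGeo_lam h_LAM n (eA P) s h0 h1
  obtain ⟨b1, b2⟩ := onGeo_lam h_LAM n (eB P) s h0 h1
  rw [← hP2] at b2
  rw [Set.mem_iUnion₂]
  refine ⟨(s, Lam (eA P) (0, 0) (eN n) s), ?_, a2, b2⟩
  rw [Finset.mem_filter, Finset.mem_filter]
  exact ⟨⟨a1, hP1⟩, rfl⟩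

open Classical in
theorem sum_level {f : Site → ℝ≥0∞} (F : Finset Site) (J : Finset ℤ) (t : ℤ) :
    ∑ j ∈ J, ∑ x ∈ F.filter (fun x => x.1 = j + t), f x ≤
      ∑ x ∈ F.filter (fun x => x.1 - t ∈ J), f x := by
  simp_rw [Finset.sum_filter]
  rw [Finset.sum_comm]
  refine Finset.sum_le_sum fun x _ => ?_
  have : ∀ j ∈ J, (if x.1 = j + t then f x else 0) = if j = x.1 - t then f x else 0 := by
    intro j _
    by_cases h : x.1 = j + t
    · rw [if_pos h, if_pos (by omega)]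
    · rw [if_neg h, if_neg (by omega)]
  rw [Finset.sum_congr rfl this, Finset.sum_ite_eq']

open Classical in
theorem pf_KG4 (h_LAM : B_LAM) (h_LAMM : B_LAMM) (h_MEG : T_MEG)
    (h_OVL : Pool.Agent.H97.NF.T_OVL) (h_MON : Pool.Agent.H97.NF.T_MON)
    (h_NIC : Pool.Agent.H97.NF.T_NIC) : T_KG4 := by
  intro q κ c₁ c Xc a n k z ρ hq0 hq1 hcq hκ0 hκ1 ha hak hA hOk hOV hz1 hz2 hρ
  set D := dk c Xc k with hD
  set ζ := cen a z with hζ
  set r := rk κ k with hr
  have hk : 1 ≤ k := ha.trans hak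
  have hr0 : 0 < r := by rw [hr]; unfold rk; positivity
  have hr4 : r ≤ 1 / 4 := by
    rw [hr]; unfold rk
    have h1 : ((1:ℝ) / 4) ^ k ≤ 1 / 4 := by
      calc ((1:ℝ) / 4) ^ k ≤ (1 / 4) ^ 1 :=
            pow_le_pow_of_le_one (by norm_num) (by norm_num) hk
        _ = 1 / 4 := by norm_num
    calc κ * (1 / 4) ^ k ≤ 1 * (1 / 4) :=
          mul_le_mul hκ1 h1 (by positivity) (by norm_num)
      _ = 1 / 4 := by norm_num
  have hρ' : ∀ x, r ≤ ρ x ∧ ρ x ≤ 1 := hρ
  set B := BxAt D ζ with hB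
  set ρ' : Site → ℝ := glueP B ρ (fun _ => r) with hρ'd
  have hR : D.A * D.w = c.A * 16 ^ k := rfl
  have hDq : D.q = q := hcq
  obtain ⟨kb, hkb⟩ : ∃ b, k = b + 1 := ⟨k - 1, by omega⟩
  have hDn : 256 * D.n = lv (k + 1) ∧ 8 * D.n = 64 ^ k ∧ 0 < D.n := by
    have : D.n = 8 * 64 ^ (k - 1) := rfl
    rw [this, hkb]
    unfold lv
    rw [Nat.add_sub_cancel, Nat.add_sub_cancel, pow_succ]
    refine ⟨by ring, by ring, by positivity⟩
  have hζ1 : ζ.1 = 64 ^ a * z.1 := rfl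
  have hζ2 : ζ.2 = 16 ^ a * z.2 := rfl
  have hends : Ends D ((0, 0) - ζ) (eN n - ζ) := by
    refine ⟨?_, ?_, ?_, ?_⟩
    · simp only [Prod.fst_sub, hζ1]; linarith [hDn.1]
    · simp only [Prod.fst_sub, hζ1, eN]; linarith [hDn.1]
    · simp only [Prod.fst_sub, Prod.snd_sub, hζ1, hζ2]
      obtain ⟨b, rfl⟩ : ∃ b, a = b + 1 := ⟨a - 1, by omega⟩
      rw [pow_succ, pow_succ]
      refine ⟨-(64 ^ b * 32 * z.1) - 16 ^ b * 8 * z.2, ?_⟩
      ring
    · have := (reach_shift (-ζ)).2 (reach0 n)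
      simpa only [sub_eq_add_neg] using this
  set G : Set PEnv := {E | GdA c Xc a n k z (eA E) ∧ GdA c Xc a n k z (eB E)} with hG
  set J := Finset.Ioc (-(2 * D.n)) (2 * D.n) with hJ
  set R := D.A * D.w with hRd
  set μ := PN q ρ with hμ
  set ν := PN q (fun _ : Site => r) with hν
  set μ' := PN q ρ' with hμ'
  -- the pointwise bound
  have hpt : ∀ E ∈ G, ENNReal.ofReal (c₁ * 64 ^ k) ≤
      ∑ j ∈ J, ν {E' | glue B E E' ∈ UU n ζ R (j + ζ.1)} := by
    intro E hE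
    have h1 := hOV (shiftE ζ (eA E)) (shiftE ζ (eB E)) ((0, 0) - ζ) (eN n - ζ) r hends hE.1 hE.2
      hr0.le le_rfl
    rw [hDq] at h1
    refine (ENNReal.ofReal_le_ofReal h1).trans ?_
    rw [ENNReal.ofReal_sum_of_nonneg (fun _ _ => measureReal_nonneg)]
    refine Finset.sum_le_sum fun j _ => ?_
    rw [measureReal_def, ENNReal.ofReal_toReal (measure_ne_top _ _)]
    refine le_trans ?_ (le_refl _)
    have hpre : shP ζ ⁻¹' {E' : PEnv |
        |Lam (splice (Bx D) (eA E') (shiftE ζ (eA E))) ((0, 0) - ζ) (eN n - ζ) j| < D.A * D.w ∧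
        Lam (splice (Bx D) (eA E') (shiftE ζ (eA E))) ((0, 0) - ζ) (eN n - ζ) j =
        Lam (splice (Bx D) (eB E') (shiftE ζ (eB E))) ((0, 0) - ζ) (eN n - ζ) j} =
        {E' | glue B E E' ∈ UU n ζ R (j + ζ.1)} := by
      ext E'
      simp only [Set.mem_preimage, Set.mem_ofPred_eq, UU]
      rw [splice_shift_A, splice_shift_B]
      have l1 := (h_LAMM ((0, 0) - ζ) (eN n - ζ) j).2.2 ζ (eA (glue (BxAt D ζ) E E')) hends.re
      have l2 := (h_LAMM ((0, 0) - ζ) (eN n - ζ) j).2.2 ζ (eB (glue (BxAt D ζ) E E')) hends.re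
      rw [sub_add_cancel, sub_add_cancel] at l1 l2
      rw [← l1, ← l2, add_sub_cancel_right, add_left_inj]
    rw [← hpre]
    refine le_of_eq ?_
    refine ((mp_shP q r ζ).measure_preimage ?_).symm
    refine MeasurableSet.nullMeasurableSet ?_
    have hsp : ∀ ω : Env, Measurable (fun ω' : Env => splice (Bx D) ω' ω) := fun ω =>
      (measurable_splice (Bx D)).comp (measurable_id.prodMk measurable_const)
    have mA : Measurable (fun E' : PEnv =>
        Lam (splice (Bx D) (eA E') (shiftE ζ (eA E))) ((0, 0) - ζ) (eN n - ζ) j) :=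
      ((h_LAMM ((0, 0) - ζ) (eN n - ζ) j).2.1).comp ((hsp _).comp measurable_eA)
    have mB : Measurable (fun E' : PEnv =>
        Lam (splice (Bx D) (eB E') (shiftE ζ (eB E))) ((0, 0) - ζ) (eN n - ζ) j) :=
      ((h_LAMM ((0, 0) - ζ) (eN n - ζ) j).2.1).comp ((hsp _).comp measurable_eB)
    exact (mA (MeasurableSet.of_discrete (s := {y : ℤ | |y| < D.A * D.w}))).inter
      (measurableSet_eq_fun mA mB)
  -- integration
  have hmU : ∀ s, MeasurableSet (UU n ζ R s) := fun s => measurableSet_UU h_LAMM n ζ R s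
  have hmp := mp_gluePN q B ρ (fun _ => r)
  have hmeas : ∀ j, Measurable (fun E : PEnv => ν {E' | glue B E E' ∈ UU n ζ R (j + ζ.1)}) := by
    intro j
    exact measurable_measure_prodMk_left (measurable_glue B (hmU (j + ζ.1)))
  have hint : ENNReal.ofReal (c₁ * 64 ^ k) * μ G ≤ ∑ j ∈ J, μ' (UU n ζ R (j + ζ.1)) := by
    calc ENNReal.ofReal (c₁ * 64 ^ k) * μ G
        = ∫⁻ _ in G, ENNReal.ofReal (c₁ * 64 ^ k) ∂μ := by rw [setLIntegral_const]
      _ ≤ ∫⁻ E in G, ∑ j ∈ J, ν {E' | glue B E E' ∈ UU n ζ R (j + ζ.1)} ∂μ := by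
          refine setLIntegral_mono ?_ hpt
          exact Finset.measurable_fun_sum _ fun j _ => hmeas j
      _ ≤ ∫⁻ E, ∑ j ∈ J, ν {E' | glue B E E' ∈ UU n ζ R (j + ζ.1)} ∂μ :=
          setLIntegral_le_lintegral _ _
      _ = ∑ j ∈ J, ∫⁻ E, ν {E' | glue B E E' ∈ UU n ζ R (j + ζ.1)} ∂μ :=
          lintegral_finsetSum _ fun j _ => hmeas j
      _ = ∑ j ∈ J, μ' (UU n ζ R (j + ζ.1)) := by
          refine Finset.sum_congr rfl fun j _ => ?_
          have h1 := hmp.measure_preimage (hmU (j + ζ.1)).nullMeasurableSet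
          rw [Measure.prod_apply (measurable_glue B (hmU (j + ζ.1)))] at h1
          exact h1
  -- the union bound
  set O : Site → Set PEnv := fun x => {P : PEnv | OnGeo n (eA P) x ∧ OnGeo n (eB P) x} with hO
  set F := (domN n).filter (fun x => |x.2 - ζ.2| < R) with hF
  have hU : ∑ j ∈ J, μ' (UU n ζ R (j + ζ.1)) ≤
      ∑ x ∈ F.filter (fun x => x.1 - ζ.1 ∈ J), μ' (O x) := by
    refine le_trans ?_ (sum_level F J ζ.1)
    refine Finset.sum_le_sum fun j hj => ?_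
    rw [hJ, Finset.mem_Ioc] at hj
    have h1 : 0 < j + ζ.1 := by
      rw [hζ1]; linarith [hDn.1, hDn.2.2]
    have h2 : j + ζ.1 < 2 * n := by
      rw [hζ1]; linarith [hDn.1, hDn.2.2]
    refine (measure_mono (UU_sub h_LAM n ζ R (j + ζ.1) h1 h2)).trans ?_
    exact measure_biUnion_finset_le _ _
  -- influences
  have hqq : 0 < q * (1 - q) := mul_pos hq0 (by linarith)
  have hS1 : ∀ x ∈ F.filter (fun x => x.1 - ζ.1 ∈ J), x ∈ domN n ∧ x ∈ B := by
    intro x hx
    rw [Finset.mem_filter, hF, Finset.mem_filter, hJ, Finset.mem_Ioc] at hx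
    obtain ⟨⟨h1, h2⟩, h3, h4⟩ := hx
    refine ⟨h1, ?_⟩
    show x - ζ ∈ Bx D
    refine ⟨?_, ?_, ?_⟩
    · simp only [Prod.fst_sub]; linarith [hDn.2.2]
    · simp only [Prod.fst_sub]; linarith [hDn.2.2]
    · simpa only [Prod.snd_sub] using h2
  have hkb : ∀ x ∈ B, x ∈ kbox c.A a z k := by
    intro x hx
    obtain ⟨h1, h2, h3⟩ : x - ζ ∈ Bx D := hx
    simp only [Prod.fst_sub, Prod.snd_sub, hζ1, hζ2] at h1 h2 h3
    refine ⟨?_, ?_⟩
    · have h4 : |x.1 - 64 ^ a * z.1| ≤ 4 * D.n := by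
        rw [abs_le]; constructor <;> linarith
      linarith [hDn.2.1]
    · have h4 : |x.2 - 16 ^ a * z.2| < c.A * 16 ^ k := h3
      exact_mod_cast h4.le
  have hρ01 : ∀ x, r ≤ ρ' x ∧ ρ' x ≤ 1 := by
    intro x
    rw [hρ'd]
    unfold glueP
    split_ifs
    · exact ⟨le_rfl, by linarith⟩
    · exact hρ' x
  have hInf0 : ∀ x ∈ domN n, 0 ≤ Infx q n (fun _ => r) x := by
    intro x hx
    refine le_trans ?_ (h_OVL q hq0 hq1 n x hx (fun _ => r) ⟨hr0.le, by linarith⟩)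
    have : 0 ≤ 1 - r := by linarith
    positivity
  have hInf : ∀ x ∈ domN n, x ∈ B → μ'.real (O x) ≤
      2 / (q * (1 - q)) * Infx q n (fun _ => r) x := by
    intro x hx hxB
    have h1 := h_OVL q hq0 hq1 n x hx ρ' ⟨hr0.le.trans (hρ01 x).1, (hρ01 x).2⟩
    have h2 : ρ' x = r := by
      rw [hρ'd]; unfold glueP; rw [if_pos hxB]
    rw [h2] at h1
    have h3 : Infx q n ρ' x ≤ Infx q n (fun _ => r) x := by
      refine h_MON q hq0.le hq1 (domN n) (Pool.Agent.H97.NF.Dx q x (ff n)) ?_ (fun _ => r) ρ' ?_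
      · exact h_NIC.2.2.2.2.2.1 q hq0.le hq1 _ _ x (h_NIC.2.2.2.2.2.2 n)
      · intro y _
        exact ⟨hr0.le, (hρ01 y).1, (hρ01 y).2⟩
    have h4 : 0 ≤ μ'.real (O x) := measureReal_nonneg
    have h5 : q * (1 - q) * (1 - r) * μ'.real (O x) ≤ Infx q n (fun _ => r) x := h1.trans h3
    have h6 : q * (1 - q) * (1 / 2) * μ'.real (O x) ≤ q * (1 - q) * (1 - r) * μ'.real (O x) := by
      refine mul_le_mul_of_nonneg_right ?_ h4
      refine mul_le_mul_of_nonneg_left (by linarith) hqq.le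
    have h7 := h6.trans h5
    rw [div_mul_eq_mul_div, le_div_iff₀ hqq]
    linarith
  have hfin : ∑ x ∈ F.filter (fun x => x.1 - ζ.1 ∈ J), μ' (O x) ≤
      ENNReal.ofReal (2 / (q * (1 - q)) *
        ∑ x ∈ (domN n).filter (fun x => x ∈ kbox c.A a z k), Infx q n (fun _ => r) x) := by
    rw [Finset.mul_sum, ENNReal.ofReal_sum_of_nonneg]
    · refine le_trans (Finset.sum_le_sum fun x hx => ?_)
        (Finset.sum_le_sum_of_subset (fun x hx => ?_))
      · obtain ⟨h1, h2⟩ := hS1 x hx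
        rw [← ENNReal.ofReal_toReal (measure_ne_top μ' (O x))]
        exact ENNReal.ofReal_le_ofReal (hInf x h1 h2)
      · obtain ⟨h1, h2⟩ := hS1 x hx
        rw [Finset.mem_filter]
        exact ⟨h1, hkb x h2⟩
    · intro x hx
      rw [Finset.mem_filter] at hx
      have := hInf0 x hx.1
      positivity
  have hall := hint.trans (hU.trans hfin)
  have hRHS : 0 ≤ 2 / (q * (1 - q)) *
      ∑ x ∈ (domN n).filter (fun x => x ∈ kbox c.A a z k), Infx q n (fun _ => r) x := by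
    refine mul_nonneg (by positivity) (Finset.sum_nonneg fun x hx => ?_)
    rw [Finset.mem_filter] at hx
    exact hInf0 x hx.1
  rcases le_or_gt 0 c₁ with hc | hc
  · have h1 : ENNReal.ofReal (c₁ * 64 ^ k * μ.real G) ≤ ENNReal.ofReal (2 / (q * (1 - q)) *
        ∑ x ∈ (domN n).filter (fun x => x ∈ kbox c.A a z k), Infx q n (fun _ => r) x) := by
      rw [ENNReal.ofReal_mul (by positivity), measureReal_def,
        ENNReal.ofReal_toReal (measure_ne_top _ _)]
      exact hall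
    exact (ENNReal.ofReal_le_ofReal_iff hRHS).1 h1
  · refine le_trans ?_ hRHS
    have : 0 ≤ μ.real G := measureReal_nonneg
    have h2 : c₁ * 64 ^ k ≤ 0 := mul_nonpos_of_nonpos_of_nonneg hc.le (by positivity)
    exact mul_nonpos_of_nonpos_of_nonneg h2 this

end Pool.Agent.H35.ND
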