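import Pool.Agent.H84.ND.Targets2
import Pool.Agent.H96.SM.NUC

/-!
# Row NC of the board `ndc_modules`: the dimension of the restrictions to the curve, numerically
-/

set_option autoImplicit false

namespace Pool.Agent.H35.ND

open Pool.Agent.H84.SM Pool.Agent.H84.ND
open Pool.Agent.H96.SM (cubic_bound sdim_le sum_lin sum_lin2 sum_jb sum_ind)

theorem pf_NC : T_NC := by
  intro d e1 hd
  have hd0 : (5 : ℝ) ≤ d := by exact_mod_cast hd
  -- the coefficients
  set A : ℝ := d + 33 with hA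
  set e : ℝ := (e1 : ℝ) with he
  set p2 : ℝ := 216 * (d : ℝ) ^ 2 with hp2
  set p1 : ℝ := 30 * (d : ℝ) with hp1
  set s3 : ℝ := 3456 * (d : ℝ) ^ 3 with hs3
  set s2 : ℝ := 504 * (d : ℝ) ^ 2 with hs2
  set s1 : ℝ := 18 * (d : ℝ) with hs1
  set g2 : ℝ := -A * d ^ 2 * (d - 3) + d ^ 2 * A ^ 2 / 2 with hg2
  set g1 : ℝ := -e * d ^ 2 * (d - 3) + d ^ 2 * (2 * A * e + A) / 2 + A with hg1
  set g0 : ℝ := (d : ℝ) ^ 2 * (e ^ 2 + e) / 2 + e with hg0
  obtain ⟨C, hC⟩ := cubic_bound (p2 * g1 + p1 * g2 + d * (d - 3) * (s3 * e + s2 * A))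
    (p2 * g0 + p1 * g1 + g2 + d * (d - 3) * (s2 * e + s1 * A))
    (p1 * g0 + g1 + d * (d - 3) * s1 * e) g0
  refine ⟨C, fun m hm => ?_⟩
  have hCm := hC m hm
  have hm1 : (1 : ℝ) ≤ m := by exact_mod_cast hm
  set I : ℕ := (d + 33) * m + e1 with hI
  set t : ℕ := (d - 3) * d * m with ht
  have htR : (t : ℝ) = (d - 3) * d * m := by
    rw [ht]
    push_cast [Nat.cast_sub (show 3 ≤ d by omega)]
    ring
  have hIR : (I : ℝ) = A * m + e := by
    rw [hI, hA, he]
    push_cast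
    ring
  -- the bound for one term
  have hn : 36 * d * m = 3 * (12 * d * m) := by ring
  have hn3 : 36 * d * m / 3 = 12 * d * m := by
    rw [hn]
    exact Nat.mul_div_cancel_left _ (by norm_num)
  have hterm : ∀ i j b : ℕ, (sdim d (-(t : ℤ) + ((i : ℤ) + 1) * d + ((b : ℤ) + j) * ((d : ℤ) - 3)) : ℝ) ≤
      ((d * (-(t : ℝ) + ((i : ℝ) + 1) * d) + 1) + (d * ((d : ℝ) - 3)) * ((b : ℝ) + j)) +
        (if i < (d - 3) * m ∧ j < d * m ∧ b < d * m then (d : ℝ) * t else 0) := by
    intro i j b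
    refine (sdim_le d (by omega) _).trans ?_
    refine add_le_add (le_of_eq ?_) ?_
    · push_cast
      ring
    · set r : ℤ := -(t : ℤ) + ((i : ℤ) + 1) * d + ((b : ℤ) + j) * ((d : ℤ) - 3) with hr
      by_cases hr0 : r < 0
      · rw [if_pos hr0]
        have hd3 : ((d - 3 : ℕ) : ℤ) = (d : ℤ) - 3 := by omega
        have htZ : (t : ℤ) = ((d : ℤ) - 3) * d * m := by
          rw [ht]
          push_cast [hd3]
          ring
        have hdz : (5 : ℤ) ≤ d := by exact_mod_cast hd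
        have hb0 : (0 : ℤ) ≤ (b : ℤ) := Int.natCast_nonneg _
        have hj0 : (0 : ℤ) ≤ (j : ℤ) := Int.natCast_nonneg _
        have hi0 : (0 : ℤ) ≤ (i : ℤ) := Int.natCast_nonneg _
        have hm0 : (0 : ℤ) ≤ (m : ℤ) := Int.natCast_nonneg _
        have hA1 : 0 ≤ ((b : ℤ) + j) * ((d : ℤ) - 3) := mul_nonneg (by omega) (by omega)
        have hA2 : 0 ≤ ((i : ℤ) + 1) * d := mul_nonneg (by omega) (by omega)
        have hi1 : i < (d - 3) * m := by
          have h1 : ((i : ℤ) + 1) * d < (((d : ℤ) - 3) * m) * d := by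
            rw [hr, htZ] at hr0
            nlinarith
          have h2 : (i : ℤ) + 1 < ((d : ℤ) - 3) * m := lt_of_mul_lt_mul_right h1 (by omega)
          have h3 : ((((d - 3) * m : ℕ)) : ℤ) = ((d : ℤ) - 3) * m := by
            push_cast [hd3]
            ring
          omega
        have hbj : (b : ℤ) + j < d * m := by
          have h1 : ((b : ℤ) + j) * ((d : ℤ) - 3) < (d * m) * ((d : ℤ) - 3) := by
            rw [hr, htZ] at hr0
            nlinarith [mul_nonneg (show (0 : ℤ) ≤ d by omega) hm0]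
          exact lt_of_mul_lt_mul_right h1 (by omega)
        have hj1 : j < d * m := by
          have : (j : ℤ) < ((d * m : ℕ) : ℤ) := by push_cast; omega
          exact_mod_cast this
        have hb1 : b < d * m := by
          have : (b : ℤ) < ((d * m : ℕ) : ℤ) := by push_cast; omega
          exact_mod_cast this
        rw [if_pos ⟨hi1, hj1, hb1⟩]
        refine mul_le_mul_of_nonneg_left ?_ (by positivity)
        have h4 : -r ≤ (t : ℤ) := by
          rw [hr]
          omega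
        exact_mod_cast h4
      · rw [if_neg hr0]
        by_cases h : i < (d - 3) * m ∧ j < d * m ∧ b < d * m
        · rw [if_pos h]
          positivity
        · rw [if_neg h]
  -- summation
  have hsum : ((∑ i ∈ Finset.range I, cb d (36 * d * m) (-(t : ℤ) + ((i : ℤ) + 1) * d) : ℕ) : ℝ) ≤
      (∑ i ∈ Finset.range I, ∑ j ∈ Finset.range (12 * d * m + 1),
        ∑ b ∈ Finset.range (3 * (12 * d * m) - 3 * j + 1),
          ((d * (-(t : ℝ) + ((i : ℝ) + 1) * d) + 1) + (d * ((d : ℝ) - 3)) * ((b : ℝ) + j))) +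
      ∑ i ∈ Finset.range I, ∑ j ∈ Finset.range (12 * d * m + 1),
        ∑ b ∈ Finset.range (3 * (12 * d * m) - 3 * j + 1),
          (if i < (d - 3) * m ∧ j < d * m ∧ b < d * m then (d : ℝ) * t else 0) := by
    rw [← Finset.sum_add_distrib, Nat.cast_sum]
    refine Finset.sum_le_sum fun i _ => ?_
    unfold cb
    rw [hn3, hn, Nat.cast_sum, ← Finset.sum_add_distrib]
    refine Finset.sum_le_sum fun j _ => ?_
    rw [Nat.cast_sum, ← Finset.sum_add_distrib]
    exact Finset.sum_le_sum fun b _ => hterm i j b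
  refine hsum.trans ?_
  have hX0 : (0 : ℝ) ≤ (d : ℝ) * t := by positivity
  have hsecond : (∑ i ∈ Finset.range I, ∑ j ∈ Finset.range (12 * d * m + 1),
        ∑ b ∈ Finset.range (3 * (12 * d * m) - 3 * j + 1),
          (if i < (d - 3) * m ∧ j < d * m ∧ b < d * m then (d : ℝ) * t else 0)) ≤
      (((d - 3) * m : ℕ) : ℝ) * (((d * m : ℕ) : ℝ) * (((d * m : ℕ) : ℝ) * ((d : ℝ) * t))) := by
    refine sum_ind I _ _ _ (by positivity) (fun i => ?_) (fun i hi => ?_)
    · refine sum_ind _ _ _ _ (by positivity) (fun j => ?_) (fun j hj => ?_)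
      · refine sum_ind _ _ _ _ (by positivity) (fun b => ?_) (fun b hb => ?_)
        · split_ifs
          · exact le_rfl
          · exact hX0
        · rw [if_neg (fun h => absurd h.2.2 (not_lt.2 hb))]
      · refine Finset.sum_nonpos fun b _ => ?_
        rw [if_neg (fun h => absurd h.2.1 (not_lt.2 hj))]
    · refine Finset.sum_nonpos fun j _ => Finset.sum_nonpos fun b _ => ?_
      rw [if_neg (fun h => absurd h.1 (not_lt.2 hi))]
  have hfirst : (∑ i ∈ Finset.range I, ∑ j ∈ Finset.range (12 * d * m + 1),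
        ∑ b ∈ Finset.range (3 * (12 * d * m) - 3 * j + 1),
          ((d * (-(t : ℝ) + ((i : ℝ) + 1) * d) + 1) + (d * ((d : ℝ) - 3)) * ((b : ℝ) + j))) =
      (I * (d * (-(t : ℝ) + d) + 1) + d * d * (I * ((I : ℝ) - 1) / 2)) *
        ((12 * d * m + 1) * (3 * (12 * d * m) + 2) / 2) +
      I * ((d * ((d : ℝ) - 3)) *
        ((12 * d * m) * (12 * d * m + 1) * (4 * (12 * d * m) + 3) / 2)) := by
    have h1 : ∀ i ∈ Finset.range I, (∑ j ∈ Finset.range (12 * d * m + 1),
        ∑ b ∈ Finset.range (3 * (12 * d * m) - 3 * j + 1),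
          ((d * (-(t : ℝ) + ((i : ℝ) + 1) * d) + 1) + (d * ((d : ℝ) - 3)) * ((b : ℝ) + j))) =
        ((d * (-(t : ℝ) + d) + 1) * ((12 * d * m + 1) * (3 * (12 * d * m) + 2) / 2) +
          (d * ((d : ℝ) - 3)) *
            ((12 * d * m) * (12 * d * m + 1) * (4 * (12 * d * m) + 3) / 2)) +
        (d * d * ((12 * d * m + 1) * (3 * (12 * d * m) + 2) / 2)) * (i : ℝ) := by
      intro i _
      rw [sum_jb]
      push_cast
      ring
    rw [Finset.sum_congr rfl h1, sum_lin]
    ring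
  rw [hfirst]
  have hd3R : ((((d - 3) * m : ℕ)) : ℝ) = (d - 3) * m := by
    push_cast [Nat.cast_sub (show 3 ≤ d by omega)]
    ring
  rw [hd3R] at hsecond
  rw [htR] at hsecond ⊢
  rw [hIR]
  push_cast at hsecond
  have hfin : ((A * m + e) * (d * (-((d - 3) * d * m) + d) + 1) +
      d * d * ((A * m + e) * (A * m + e - 1) / 2)) *
        ((12 * d * m + 1) * (3 * (12 * d * m) + 2) / 2) +
      (A * m + e) * ((d * ((d : ℝ) - 3)) *
        ((12 * d * m) * (12 * d * m + 1) * (4 * (12 * d * m) + 3) / 2)) =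
      (54 * (1 - (((d : ℝ) - 3) / 36) ^ 2) + 48 * (d - 3) * (1 + ((d : ℝ) - 3) / 36)) / 648 *
        (36 * d * m) ^ 4 +
      ((p2 * g1 + p1 * g2 + d * (d - 3) * (s3 * e + s2 * A)) * (m : ℝ) ^ 3 +
      (p2 * g0 + p1 * g1 + g2 + d * (d - 3) * (s2 * e + s1 * A)) * (m : ℝ) ^ 2 +
      (p1 * g0 + g1 + d * (d - 3) * s1 * e) * m + g0) := by
    rw [hg2, hg1, hg0, hp2, hp1, hs3, hs2, hs1, hA]
    ring
  rw [hfin]
  have hsec2 : ((d : ℝ) - 3) * m * (d * m * (d * m * (d * ((d - 3) * d * m)))) =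
      (d - 3) ^ 2 * (d : ℝ) ^ 4 * (m : ℝ) ^ 4 := by ring
  rw [hsec2] at hsecond
  linarith

end Pool.Agent.H35.ND
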