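import Pool.Agent.H76.ND.Targets

/-!
# Part D of MP_57ddd5_pr: module O2
-/

open MeasureTheory ProbabilityTheory
open scoped ENNReal

namespace Pool.Agent.H35.ND

open Pool.Agent.H99.NS Pool.Agent.H22.LPP Pool.Agent.H95.INS Pool.Agent.H76.ND

/-- Lower bound between two levels with an explicit constant. -/
def LBq (P : PS) (q V c : ℝ) (X s t : ℤ) : Prop :=
  ∀ x y : ℤ, |x| ≤ X → |y| ≤ X → Reach (s, x) (t, y) →
    par q (s, x) (t, y) - c * (1 + max |(x : ℝ)| |(y : ℝ)| / V) ≤ P.TT (s, x) (t, y)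

theorem LBq_mono {P : PS} {q V c c' : ℝ} {X s t : ℤ} (hV : 0 < V) (h : c ≤ c')
    (H : LBq P q V c X s t) : LBq P q V c' X s t := by
  intro x y hx hy hr
  refine le_trans ?_ (H x y hx hy hr)
  have h1 : 0 ≤ 1 + max |(x : ℝ)| |(y : ℝ)| / V := by positivity
  have := mul_le_mul_of_nonneg_right h h1
  linarith

theorem comp_aux {M μ g d r h1 h0 l : ℝ} (hh1 : 0 < h1) (hh0 : 0 < h0)
    (hl : l = h1 / (h1 + h0)) :
    μ * h1 - g / 2 * (l * d + r) ^ 2 / h1 + (μ * h0 - g / 2 * ((1 - l) * d - r) ^ 2 / h0) =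
    μ * (h1 + h0) - g / 2 * d ^ 2 / (h1 + h0) - g / 2 * (r ^ 2 / h1 + r ^ 2 / h0) := by
  subst hl
  have : h1 + h0 ≠ 0 := by positivity
  field_simp
  ring

theorem LBq_comp (h_RND : T_RND) {P : PS} {q V c1 c2 : ℝ} {X s m t : ℤ} (hV : 0 < V)
    (hsg : 0 ≤ sg q) (hX : 1 ≤ X) (hc1 : 0 ≤ c1) (hc2 : 0 ≤ c2)
    (he1 : Even (m - s)) (he0 : Even (t - m)) (h1 : 2 * X ≤ m - s) (h0 : 2 * X ≤ t - m)
    (H1 : LBq P q V c1 X s m) (H2 : LBq P q V c2 X m t) :
    LBq P q V (c1 + c2 + 4 * sg q) X s t := by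
  intro x y hx hy hr
  obtain ⟨hr1, hr2⟩ := hr
  simp only at hr1 hr2
  have hev : Even (y - x) := by
    have : y - x = (t - s + (y - x)) - (m - s) - (t - m) := by ring
    rw [this]
    exact (hr2.sub he1).sub he0
  obtain ⟨l, hl⟩ : ∃ l : ℝ, l = ((m - s : ℤ) : ℝ) / (((m - s : ℤ) : ℝ) + ((t - m : ℤ) : ℝ)) :=
    ⟨_, rfl⟩
  have hm1 : (1:ℝ) ≤ ((m - s : ℤ) : ℝ) := by exact_mod_cast (by omega : 1 ≤ m - s)
  have ht1 : (1:ℝ) ≤ ((t - m : ℤ) : ℝ) := by exact_mod_cast (by omega : 1 ≤ t - m)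
  have hl0 : 0 ≤ l := by rw [hl]; positivity
  have hl1 : l ≤ 1 := by
    rw [hl, div_le_one (by positivity)]
    linarith
  obtain ⟨z, hz1, hz2, hz3, hz4⟩ := h_RND x y l hev hl0 hl1
  have hzX : |z| ≤ X := by
    rw [abs_le] at hx hy ⊢
    constructor
    · rcases le_total x y with h | h
      · rw [min_eq_left h] at hz2; omega
      · rw [min_eq_right h] at hz2; omega
    · rcases le_total x y with h | h
      · rw [max_eq_right h] at hz3; omega
      · rw [max_eq_left h] at hz3; omega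
  have hxz : |z - x| ≤ 2 * X := by
    rw [abs_le] at *
    constructor <;> omega
  have hzy : |y - z| ≤ 2 * X := by
    rw [abs_le] at *
    constructor <;> omega
  have hR1 : Reach (s, x) (m, z) := ⟨by simp only; omega, by simp only; exact he1.add hz1⟩
  have hR2 : Reach (m, z) (t, y) := ⟨by simp only; omega, by
    simp only
    refine he0.add ?_
    have : y - z = (y - x) - (z - x) := by ring
    rw [this]
    exact hev.sub hz1⟩
  have hsup := P.sup _ _ _ hR1 hR2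
  have hA := H1 x z hx hzX hR1
  have hB := H2 z y hzX hy hR2
  have hzM : |(z : ℝ)| ≤ max |(x : ℝ)| |(y : ℝ)| := by
    rw [abs_le]
    have hx' := neg_abs_le (x : ℝ)
    have hx'' := le_abs_self (x : ℝ)
    have hy' := neg_abs_le (y : ℝ)
    have hy'' := le_abs_self (y : ℝ)
    have hm1 := le_max_left |(x : ℝ)| |(y : ℝ)|
    have hm2 := le_max_right |(x : ℝ)| |(y : ℝ)|
    constructor
    · rcases le_total x y with h | h
      · rw [min_eq_left h] at hz2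
        have : (x : ℝ) ≤ z := by exact_mod_cast hz2
        linarith
      · rw [min_eq_right h] at hz2
        have : (y : ℝ) ≤ z := by exact_mod_cast hz2
        linarith
    · rcases le_total x y with h | h
      · rw [max_eq_right h] at hz3
        have : (z : ℝ) ≤ y := by exact_mod_cast hz3
        linarith
      · rw [max_eq_left h] at hz3
        have : (z : ℝ) ≤ x := by exact_mod_cast hz3
        linarith
  have hM1 : c1 * (1 + max |(x : ℝ)| |(z : ℝ)| / V) ≤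
      c1 * (1 + max |(x : ℝ)| |(y : ℝ)| / V) := by
    refine mul_le_mul_of_nonneg_left ?_ hc1
    have : max |(x : ℝ)| |(z : ℝ)| ≤ max |(x : ℝ)| |(y : ℝ)| := max_le (le_max_left _ _) hzM
    have := div_le_div_of_nonneg_right this hV.le
    linarith
  have hM2 : c2 * (1 + max |(z : ℝ)| |(y : ℝ)| / V) ≤
      c2 * (1 + max |(x : ℝ)| |(y : ℝ)| / V) := by
    refine mul_le_mul_of_nonneg_left ?_ hc2
    have : max |(z : ℝ)| |(y : ℝ)| ≤ max |(x : ℝ)| |(y : ℝ)| := max_le hzM (le_max_right _ _)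
    have := div_le_div_of_nonneg_right this hV.le
    linarith
  obtain ⟨r, hrdef⟩ : ∃ r : ℝ, r = (z : ℝ) - (x + l * (y - x)) := ⟨_, rfl⟩
  rw [← hrdef] at hz4
  have hpar := comp_aux (M := 0) (μ := mu q) (g := sg q) (d := (y : ℝ) - x) (r := r)
    (h1 := ((m - s : ℤ) : ℝ)) (h0 := ((t - m : ℤ) : ℝ)) (l := l) (by linarith) (by linarith) hl
  have e1 : l * ((y : ℝ) - x) + r = (z : ℝ) - x := by rw [hrdef]; ring
  have e2 : (1 - l) * ((y : ℝ) - x) - r = (y : ℝ) - z := by rw [hrdef]; ring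
  rw [e1, e2] at hpar
  have hr2' : r ^ 2 ≤ 4 := by
    rw [abs_le] at hz4
    nlinarith only [hz4]
  have hd1 : r ^ 2 / ((m - s : ℤ) : ℝ) ≤ 4 := by
    rw [div_le_iff₀ (by linarith)]
    nlinarith only [hm1, hr2']
  have hd2 : r ^ 2 / ((t - m : ℤ) : ℝ) ≤ 4 := by
    rw [div_le_iff₀ (by linarith)]
    nlinarith only [ht1, hr2']
  have hsum : sg q / 2 * (r ^ 2 / ((m - s : ℤ) : ℝ) + r ^ 2 / ((t - m : ℤ) : ℝ)) ≤ 4 * sg q := by
    have : sg q / 2 * (r ^ 2 / ((m - s : ℤ) : ℝ) + r ^ 2 / ((t - m : ℤ) : ℝ)) ≤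
        sg q / 2 * 8 := mul_le_mul_of_nonneg_left (by linarith) (by linarith)
    linarith
  have hV1 : 0 ≤ max |(x : ℝ)| |(y : ℝ)| / V := by positivity
  have h4 : 4 * sg q ≤ 4 * sg q * (1 + max |(x : ℝ)| |(y : ℝ)| / V) := by
    have := mul_nonneg (by linarith : (0:ℝ) ≤ 4 * sg q) hV1
    linarith
  unfold par at hA hB ⊢
  simp only at hA hB ⊢
  have e3 : (((m - s : ℤ) : ℝ) + ((t - m : ℤ) : ℝ)) = ((t - s : ℤ) : ℝ) := by push_cast; ring
  rw [e3] at hpar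
  push_cast at hA hB hpar hsum ⊢
  linarith only [hsup, hM1, hM2, h4, hA, hB, hpar, hsum]

theorem lv_pos (i : ℕ) : 0 < lv i := by unfold lv; positivity

theorem sg_nn {q : ℝ} (h0 : 0 < q) (h1 : q < 1) : 0 ≤ sg q := by
  unfold sg
  have : 0 < 1 - q := by linarith
  positivity

theorem pf_O2 (h_RND : T_RND) : T_O2 := by
  intro q C₀ hq0 hq1 hC0
  have hsg := sg_nn hq0 hq1
  refine ⟨C₀ + 2 + 8 * sg q, by linarith, ?_⟩
  intro D k K0 Xc ω hk hK0 hXc hXk hDq hDn hDw hDf hDX hDK hM hL hR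
  obtain ⟨j, rfl⟩ : ∃ j, k = j + 1 := ⟨k - 1, by omega⟩
  have h4n : 4 * D.n = lv (j + 1) := by
    rw [hDn]; unfold lv; simp only [Nat.add_sub_cancel]; ring
  have h256 : 256 * D.n = lv (j + 1 + 1) := by
    rw [hDn]; unfold lv; simp only [Nat.add_sub_cancel]; rw [pow_succ]; ring
  have hlv2 : lv (j + 1 + 1) = 64 * lv (j + 1) := by
    unfold lv; simp only [Nat.add_sub_cancel]; rw [pow_succ]; ring
  have hlv64 : (64:ℤ) ^ (j + 1) = 2 * lv (j + 1) := by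
    unfold lv; simp only [Nat.add_sub_cancel]; rw [pow_succ]; ring
  have hXb : 4 * (Xc * 16 ^ (j + 1)) ≤ 2 * lv (j + 1) := by
    rw [← hlv64]
    have h1 : (4 * Xc) * 16 ^ (j + 1) ≤ 4 ^ (j + 1) * 16 ^ (j + 1) :=
      mul_le_mul_of_nonneg_right hXk (by positivity)
    rw [← mul_pow] at h1
    norm_num at h1
    linarith
  have hX1 : 1 ≤ Xc * 16 ^ (j + 1) := by
    have : (1:ℤ) ≤ 16 ^ (j + 1) := one_le_pow₀ (by norm_num)
    nlinarith only [hXc, this]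
  have hev : Even (lv (j + 1)) := by
    unfold lv
    exact Even.mul_right (by decide) _
  have hV : (0:ℝ) < 16 ^ (j + 1) := by positivity
  have h4p : (0:ℝ) < 4 ^ (j + 1) := by positivity
  -- basic bounds
  have hal : ∀ M : ℝ, al K0 (j + 1) (j + 1) M = K0 * 4 ^ (j + 1) * (1 + M / 16 ^ (j + 1)) := by
    intro M
    unfold al ds
    simp
  have bM : LBq (fwd ω) q (16 ^ (j + 1)) (C₀ * K0 * 4 ^ (j + 1)) (Xc * 16 ^ (j + 1))
      (-lv (j + 1)) (lv (j + 1)) := by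
    intro x y hx hy hr
    refine hM x y hx hy ?_ hr
    rw [abs_le] at *
    constructor <;> nlinarith only [hx, hy]
  have hwide : ∀ x y : ℤ, |x| ≤ Xc * 16 ^ (j + 1) → |y| ≤ Xc * 16 ^ (j + 1) →
      |x - y| ≤ 16 * Xc * 16 ^ (j + 1) := by
    intro x y hx hy
    have := abs_sub x y
    have h3 : 16 * Xc * 16 ^ (j + 1) = 16 * (Xc * 16 ^ (j + 1)) := by ring
    rw [h3]
    omega
  have bL : LBq (fwd ω) q (16 ^ (j + 1)) (K0 * 4 ^ (j + 1)) (Xc * 16 ^ (j + 1))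
      (-lv (j + 1 + 1)) (-lv (j + 1)) := by
    intro x y hx hy hr
    have := hL x y (by simpa using hx) (by simpa using hy) (hwide x y hx hy) hr
    rw [hal] at this
    exact this
  have bR : LBq (fwd ω) q (16 ^ (j + 1)) (K0 * 4 ^ (j + 1)) (Xc * 16 ^ (j + 1))
      (lv (j + 1)) (lv (j + 1 + 1)) := by
    intro x y hx hy hr
    have := hR x y (by simpa using hx) (by simpa using hy) (hwide x y hx hy) hr
    rw [hal] at this
    exact this
  have hlp := lv_pos (j + 1)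
  have e1 : Even (-lv (j + 1) - -lv (j + 1 + 1)) := by
    rw [hlv2]
    exact (hev.neg).sub ((hev.mul_left 64).neg)
  have e2 : Even (lv (j + 1) - -lv (j + 1)) := hev.sub hev.neg
  have e3 : Even (lv (j + 1 + 1) - lv (j + 1)) := by
    rw [hlv2]
    exact (hev.mul_left 64).sub hev
  have e4 : Even (lv (j + 1) - -lv (j + 1 + 1)) := by
    rw [hlv2]
    exact hev.sub ((hev.mul_left 64).neg)
  have p0 : 0 ≤ K0 * 4 ^ (j + 1) := by positivity
  have p1 : 0 ≤ C₀ * K0 * 4 ^ (j + 1) := by positivity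
  have bA := LBq_comp h_RND hV hsg hX1 p0 p1 e1 e2 (by rw [hlv2]; linarith) (by linarith) bL bM
  have bB := LBq_comp h_RND hV hsg hX1 p1 p0 e2 e3 (by linarith) (by rw [hlv2]; linarith) bM bR
  have bF := LBq_comp h_RND hV hsg hX1 (by positivity) p0 e4 e3 (by rw [hlv2]; linarith)
    (by rw [hlv2]; linarith) bA bR
  have hbig : (C₀ + 2 + 8 * sg q) * K0 * 4 ^ (j + 1) ≤ D.K * D.f := by
    rw [hDf]
    exact mul_le_mul_of_nonneg_right hDK h4p.le
  have hK4 : 1 ≤ K0 * (4:ℝ) ^ (j + 1) := by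
    have : (1:ℝ) ≤ 4 ^ (j + 1) := one_le_pow₀ (by norm_num)
    nlinarith only [this, hK0, h4p]
  have hs4 : sg q ≤ sg q * (K0 * 4 ^ (j + 1)) := by
    have := mul_le_mul_of_nonneg_left hK4 hsg
    linarith
  have fin : ∀ (c : ℝ) (s t : ℤ), LBq (fwd ω) q (16 ^ (j + 1)) c (Xc * 16 ^ (j + 1)) s t →
      c ≤ (C₀ + 2 + 8 * sg q) * K0 * 4 ^ (j + 1) → LBd D ω s t := by
    intro c s t hc hcc x y hx hy hr
    rw [hDX] at hx hy
    have := LBq_mono hV (hcc.trans hbig) hc x y hx hy hr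
    rw [hDq, hDw]
    push_cast
    exact this
  have q0 : K0 * 4 ^ (j + 1) ≤ (C₀ + 2 + 8 * sg q) * K0 * 4 ^ (j + 1) := by
    have : 0 ≤ (C₀ + 1 + 8 * sg q) * (K0 * 4 ^ (j + 1)) := by positivity
    linarith
  have q1 : C₀ * K0 * 4 ^ (j + 1) ≤ (C₀ + 2 + 8 * sg q) * K0 * 4 ^ (j + 1) := by
    have : 0 ≤ (2 + 8 * sg q) * (K0 * 4 ^ (j + 1)) := by positivity
    linarith
  have q2 : K0 * 4 ^ (j + 1) + C₀ * K0 * 4 ^ (j + 1) + 4 * sg q ≤
      (C₀ + 2 + 8 * sg q) * K0 * 4 ^ (j + 1) := by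
    have : 0 ≤ (1 + 4 * sg q) * (K0 * 4 ^ (j + 1)) := by positivity
    linarith
  have q3 : C₀ * K0 * 4 ^ (j + 1) + K0 * 4 ^ (j + 1) + 4 * sg q ≤
      (C₀ + 2 + 8 * sg q) * K0 * 4 ^ (j + 1) := by linarith
  have q4 : K0 * 4 ^ (j + 1) + C₀ * K0 * 4 ^ (j + 1) + 4 * sg q + K0 * 4 ^ (j + 1) + 4 * sg q ≤
      (C₀ + 2 + 8 * sg q) * K0 * 4 ^ (j + 1) := by
    linarith
  refine ⟨⟨?_, ?_, ?_, ?_, ?_⟩, ?_⟩
  · rw [h256, h4n]; exact fin _ _ _ bA q2
  · rw [h256, h4n]; exact fin _ _ _ bB q3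
  · rw [h4n]; exact fin _ _ _ bM q1
  · rw [h256, h4n]; exact fin _ _ _ bL q0
  · rw [h256, h4n]; exact fin _ _ _ bR q0
  · rw [h256]; exact fin _ _ _ bF q4

end Pool.Agent.H35.ND
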