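import Pool.Agent.H35.ND.D2S

/-!
# Part D of MP_57ddd5_pr: module REGE (regularity of near geodesics through the core)
-/

open MeasureTheory ProbabilityTheory
open scoped ENNReal

namespace Pool.Agent.H35.ND

open Pool.Agent.H99.NS Pool.Agent.H22.LPP Pool.Agent.H95.INS Pool.Agent.H76.ND

theorem rvp_rvp (g : ℤ → ℤ) : rvp (rvp g) = g := by
  funext r
  unfold rvp
  rw [neg_neg]

theorem NO_bwd {ω : Env} {c : ℝ} {s t : ℤ} {g : ℤ → ℤ} (h : NO (fwd ω) c s t g) :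
    NO (bwd ω) c (-t) (-s) (rvp g) := by
  obtain ⟨hp, hW⟩ := h
  refine ⟨rvp_path hp, ?_⟩
  have e1 : (bwd ω).W (-t) (-s) (rvp g) = (fwd ω).W s t g := by
    change wt ω (- -s) (- -t) (rvp (rvp g)) = wt ω s t g
    rw [rvp_rvp, neg_neg, neg_neg]
  have e2 : (bwd ω).TT (-t, rvp g (-t)) (-s, rvp g (-s)) = (fwd ω).TT (s, g s) (t, g t) := by
    change T ω (rev (-s, rvp g (-s))) (rev (-t, rvp g (-t))) = T ω (s, g s) (t, g t)
    unfold rvp rev
    simp only [neg_neg]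
  rw [e1, e2]
  exact hW

theorem rege_real {C σ Dt' N Z W : ℝ} (hC : 0 < C) (hσ : 0 < σ) (hD : 0 ≤ Dt') (hN : 1 ≤ N)
    (hZ : Z = 3 * Dt' + C * N) (hW : W = Dt' + N) :
    2 * σ * Z ^ 2 + N * (9 + Z) + 1 ≤ (2 * σ * (3 + C) ^ 2 + 13 + C) * W ^ 2 := by
  have hW1 : 1 ≤ W := by rw [hW]; linarith
  have hZW : Z ≤ (3 + C) * W := by
    rw [hZ, hW]
    have := mul_nonneg hC.le hD
    nlinarith
  have hZ0 : 0 ≤ Z := by rw [hZ]; positivity
  have hNW : N ≤ W := by rw [hW]; linarith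
  have h1 : Z ^ 2 ≤ ((3 + C) * W) ^ 2 := pow_le_pow_left₀ hZ0 hZW 2
  have h2 : 2 * σ * Z ^ 2 ≤ 2 * σ * ((3 + C) * W) ^ 2 :=
    mul_le_mul_of_nonneg_left h1 (by linarith)
  have h3 : N * (9 + Z) ≤ W * (9 * W + (3 + C) * W) :=
    mul_le_mul hNW (by linarith) (by linarith) (by linarith)
  have h4 : 1 ≤ W ^ 2 := by nlinarith only [hD, hN, hW]
  have h5 : 2 * σ * ((3 + C) * W) ^ 2 + W * (9 * W + (3 + C) * W) + W ^ 2 =
    (2 * σ * (3 + C) ^ 2 + 13 + C) * W ^ 2 := by ring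
  linarith

theorem pf_REGE (h_REV : T_REV) (h_GSI : T_GSI) (h_NOR : T_NOR) (h_D2 : T_D2) : T_REGE := by
  intro q hq0 hq1
  obtain ⟨C, hC, hD2⟩ := h_D2 q hq0 hq1
  have hsg := sgp hq0 hq1
  obtain ⟨C', hC'd⟩ : ∃ C' : ℝ, C' = 2 * sg q * (3 + C) ^ 2 + 13 + C := ⟨_, rfl⟩
  have hCC : C ≤ C' := by
    rw [hC'd]
    have : 0 ≤ 2 * sg q * (3 + C) ^ 2 := by positivity
    linarith
  refine ⟨C', by linarith, ?_⟩
  intro K0 Xc a I k ω o e t1 g hK0 hXc hXca ha hak haI ho he hGN hNear ht1 ht2 hgt hRG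
  obtain ⟨hG1, hG2⟩ := h_GSI q K0 Xc a I k ω haI hGN
  obtain ⟨⟨hc1, hc2, hc3⟩, hc4⟩ := hNear
  have hNO : NO (fwd ω) (4 ^ a) o.1 e.1 g := by
    refine ⟨hc1, ?_⟩
    rw [hc2, hc3]
    exact hc4
  have hlv : 0 < lv a := Pool.Agent.H4.ND.lv_pos a
  have hmono : lv a ≤ lv (I + 1) := Pool.Agent.H4.ND.lv_mono (by omega)
  have hNO1 := h_NOR _ _ _ (-lv (I + 1)) t1 _ _ ho (by omega) (by omega) hNO
  have hNO2 := h_NOR _ _ _ t1 (lv (I + 1)) _ _ (by omega) (by omega) he hNO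
  have hNO3 := h_NOR _ _ _ (-lv a) (lv a) _ _ (by omega) (by omega) (by omega) hNO
  obtain ⟨f1, f2⟩ := hD2 (fwd ω) K0 Xc a I k t1 g hK0 hXc hXca ha hak haI hG1 ht1 ht2 hgt hNO1
    hRG.m
  have hrt : rvp g (-t1) = g t1 := by unfold rvp; rw [neg_neg]
  have hrl : ∀ i, rvp g (-lv i) = g (lv i) := fun i => by unfold rvp; rw [neg_neg]
  obtain ⟨b1, b2⟩ := hD2 (bwd ω) K0 Xc a I k (-t1) (rvp g) hK0 hXc hXca ha hak haI hG2
    (by omega) (by omega) (by rw [hrt]; exact hgt) (NO_bwd hNO2)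
    (fun i h1 h2 => by rw [hrt, hrl]; exact hRG.p i h1 h2)
  -- displacement at the top
  have hDt0 : 0 ≤ Dt I t1 g := by unfold Dt; positivity
  have d1 : |((g (-lv (I + 1)) - g t1 : ℤ) : ℝ)| / 16 ^ (I + 1) ≤ Dt I t1 g := by
    unfold Dt
    exact div_le_div_of_nonneg_right (le_max_left _ _) (by positivity)
  have d2 : |((g (lv (I + 1)) - g t1 : ℤ) : ℝ)| / 16 ^ (I + 1) ≤ Dt I t1 g := by
    unfold Dt
    exact div_le_div_of_nonneg_right (le_max_right _ _) (by positivity)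
  have hds : ds k a = k - a := Pool.Agent.H4.ND.ds_le hak
  have hΘ : ∀ n : ℕ, (0:ℝ) < (101 / 100) ^ n := fun n => by positivity
  have hup : ∀ n, C * K0 * (101 / 100) ^ n ≤ C' * K0 * (101 / 100) ^ n := by
    intro n
    have : C * K0 ≤ C' * K0 := mul_le_mul_of_nonneg_right hCC (by linarith)
    exact mul_le_mul_of_nonneg_right this (hΘ n).le
  have part2 : ∀ r, -lv a ≤ r → r ≤ lv a → |((g r - g t1 : ℤ) : ℝ)| ≤ 16 ^ a *
      (3 * (3 / 8) ^ (I - a) * Dt I t1 g + C * K0 * (101 / 100) ^ (k - a)) := by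
    intro r hr1 hr2
    rcases le_total r t1 with h | h
    · have h3 := f2 r hr1 h
      rw [hds] at h3
      refine h3.trans (mul_le_mul_of_nonneg_left ?_ (by positivity))
      have := mul_le_mul_of_nonneg_left d1 (by positivity : (0:ℝ) ≤ 3 * (3 / 8) ^ (I - a))
      linarith
    · have h3 := b2 (-r) (by omega) (by omega)
      rw [hds, hrt, hrl] at h3
      have h4 : rvp g (-r) = g r := by unfold rvp; rw [neg_neg]
      rw [h4] at h3
      refine h3.trans (mul_le_mul_of_nonneg_left ?_ (by positivity))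
      have := mul_le_mul_of_nonneg_left d2 (by positivity : (0:ℝ) ≤ 3 * (3 / 8) ^ (I - a))
      linarith
  refine ⟨?_, ?_, ?_⟩
  · intro i hi1 hi2
    constructor
    · refine (f1 i hi1 hi2).trans ?_
      have := mul_le_mul_of_nonneg_left d1 (by positivity : (0:ℝ) ≤ (3 / 8) ^ (I + 1 - i))
      linarith [hup (ds k i)]
    · have h3 := b1 i hi1 hi2
      rw [hrt, hrl, hrl] at h3
      refine h3.trans ?_
      have := mul_le_mul_of_nonneg_left d2 (by positivity : (0:ℝ) ≤ (3 / 8) ^ (I + 1 - i))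
      linarith [hup (ds k i)]
  · intro r hr1 hr2
    refine (part2 r hr1 hr2).trans (mul_le_mul_of_nonneg_left ?_ (by positivity))
    linarith [hup (k - a)]
  · obtain ⟨Z, hZd⟩ : ∃ Z : ℝ, Z = 3 * (3 / 8) ^ (I - a) * Dt I t1 g +
      C * K0 * (101 / 100) ^ (k - a) := ⟨_, rfl⟩
    have hx := part2 (-lv a) le_rfl (by omega)
    have hy := part2 (lv a) (by omega) le_rfl
    rw [← hZd] at hx hy
    have hZ0 : 0 ≤ Z := by rw [hZd]; positivity
    have hcx := hRG.c (-lv a) le_rfl (by omega)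
    have hcy := hRG.c (lv a) (by omega) le_rfl
    have h16k : (16:ℤ) ^ a ≤ 16 ^ k := pow_le_pow_right₀ (by norm_num) hak
    have h16a : (0:ℤ) < 16 ^ a := by positivity
    have hX16 : Xc * 16 ^ a ≤ Xc * 16 ^ k := mul_le_mul_of_nonneg_left h16k (by omega)
    have h8 : 16 * 16 ^ k ≤ Xc * 16 ^ k := mul_le_mul_of_nonneg_right hXc (by positivity)
    have hgt' : |g t1| ≤ 8 * 16 ^ k := by exact_mod_cast hgt
    have hp16 : (0:ℤ) ≤ 16 ^ k := by positivity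
    have bx : |g (-lv a)| ≤ Xc * 16 ^ k := by
      have := abs_sub_abs_le_abs_sub (g (-lv a)) (g t1)
      linarith
    have by' : |g (lv a)| ≤ Xc * 16 ^ k := by
      have := abs_sub_abs_le_abs_sub (g (lv a)) (g t1)
      linarith
    have bxy : |g (-lv a) - g (lv a)| ≤ 16 * Xc * 16 ^ a := by
      have e16 : 16 * Xc * 16 ^ a = 16 * (Xc * 16 ^ a) := by ring
      have h0 : 0 ≤ Xc * 16 ^ a := mul_nonneg (by omega) h16a.le
      have h1 := abs_sub_le (g (-lv a)) (g t1) (g (lv a))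
      rw [abs_sub_comm (g t1) (g (lv a))] at h1
      rw [e16]
      linarith
    have hreach : Reach (-lv a, g (-lv a)) (lv a, g (lv a)) := by
      have := path_lip hNO3.1 le_rfl (by omega : -lv a ≤ lv a) le_rfl
      exact ⟨this.1, this.2⟩
    have hl := hG1.lc (g (-lv a)) (g (lv a)) (by rw [max_eq_left hak]; exact bx)
      (by rw [max_eq_left hak]; exact by') bxy hreach
    have hw := hNO3.2
    -- real part
    have c0 := Pool.Agent.H4.ND.lv_real ha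
    obtain ⟨Θ, hΘd⟩ : ∃ Θ : ℝ, Θ = (101 / 100) ^ (k - a) := ⟨_, rfl⟩
    have hΘ1 : 1 ≤ Θ := by rw [hΘd]; exact one_le_pow₀ (by norm_num)
    have hN1 : 1 ≤ K0 * Θ := by nlinarith only [hK0, hΘ1, hq0, hq1]
    obtain ⟨F, hFd⟩ : ∃ F : ℝ, F = 4 ^ a := ⟨_, rfl⟩
    obtain ⟨L, hLd⟩ : ∃ L : ℝ, L = 64 ^ a := ⟨_, rfl⟩
    obtain ⟨p, hpd⟩ : ∃ p : ℝ, p = 16 ^ a := ⟨_, rfl⟩
    have hL0 : 0 < L := by rw [hLd]; positivity
    have hF0 : 0 < F := by rw [hFd]; positivity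
    have hp0 : 0 < p := by rw [hpd]; positivity
    have hpLF : p ^ 2 = L * F := by
      rw [hpd, hLd, hFd, ← pow_mul, mul_comm a 2, pow_mul, ← mul_pow]
      norm_num
    rw [← hpd] at hx hy
    push_cast at hx hy
    have hyx : ((g (lv a) : ℝ) - g (-lv a)) ^ 2 ≤ 4 * Z ^ 2 * (L * F) := by
      rw [← hpLF]
      have h1 : |(g (lv a) : ℝ) - g (-lv a)| ≤ 2 * (p * Z) := by
        have := abs_sub_le (g (lv a) : ℝ) (g t1) (g (-lv a))
        rw [abs_sub_comm (g t1 : ℝ) (g (-lv a))] at this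
        linarith
      have h2 : ((g (lv a) : ℝ) - g (-lv a)) ^ 2 ≤ (2 * (p * Z)) ^ 2 := by
        rw [← sq_abs]
        exact pow_le_pow_left₀ (abs_nonneg _) h1 2
      calc ((g (lv a) : ℝ) - g (-lv a)) ^ 2 ≤ (2 * (p * Z)) ^ 2 := h2
        _ = 4 * Z ^ 2 * p ^ 2 := by ring
    have hpk : p ≤ 16 ^ k := by rw [hpd]; exact pow_le_pow_right₀ (by norm_num) hak
    have hmx : max |(g (-lv a) : ℝ)| |(g (lv a) : ℝ)| / 16 ^ k ≤ 8 + Z := by
      rw [div_le_iff₀ (by positivity)]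
      have a1 := abs_sub_abs_le_abs_sub (g (-lv a) : ℝ) (g t1)
      have a2 := abs_sub_abs_le_abs_sub (g (lv a) : ℝ) (g t1)
      have a3 := mul_le_mul_of_nonneg_left hpk hZ0
      apply max_le <;> linarith only [hgt, hx, a1, a3, hy, a2]
    unfold par al at hl
    rw [max_eq_left hak, hds, ← hΘd, ← hFd] at hl
    simp only at hl
    have t1' : ((lv a - -lv a : ℤ) : ℝ) = L := by
      push_cast
      rw [c0, hLd]; ring
    rw [t1'] at hl
    have t2 : sg q / 2 * ((g (lv a) - g (-lv a) : ℤ) : ℝ) ^ 2 / L ≤ F * (2 * sg q * Z ^ 2) := by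
      rw [div_le_iff₀ hL0]
      push_cast
      have := mul_le_mul_of_nonneg_left hyx (by linarith : 0 ≤ sg q / 2)
      linarith
    have t3 : K0 * Θ * F * (1 + max |(g (-lv a) : ℝ)| |(g (lv a) : ℝ)| / 16 ^ k) ≤
        F * (K0 * Θ * (9 + Z)) := by
      have := mul_le_mul_of_nonneg_left (add_le_add (le_refl (1:ℝ)) hmx)
        (by positivity : 0 ≤ K0 * Θ * F)
      linarith
    have hZ' : Z = 3 * ((3 / 8) ^ (I - a) * Dt I t1 g) + C * (K0 * Θ) := by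
      rw [hZd, hΘd]; ring
    have hreal := rege_real (σ := sg q) (W := (3 / 8) ^ (I - a) * Dt I t1 g + K0 * Θ) hC hsg
      (by positivity : (0:ℝ) ≤ (3 / 8) ^ (I - a) * Dt I t1 g) hN1 hZ' rfl
    rw [← hC'd] at hreal
    have hreal2 := mul_le_mul_of_nonneg_left hreal hF0.le
    rw [← hLd, ← hFd, ← hΘd]
    have hw' : T ω (-lv a, g (-lv a)) (lv a, g (lv a)) - F ≤ wt ω (-lv a) (lv a) g := by
      rw [hFd]; exact hw
    have hl' : mu q * L - sg q / 2 * ((g (lv a) - g (-lv a) : ℤ) : ℝ) ^ 2 / L -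
        K0 * Θ * F * (1 + max |(g (-lv a) : ℝ)| |(g (lv a) : ℝ)| / 16 ^ k) ≤
        T ω (-lv a, g (-lv a)) (lv a, g (lv a)) := hl
    have e3 : C' * F * ((3 / 8) ^ (I - a) * Dt I t1 g + K0 * Θ) ^ 2 =
      F * (C' * ((3 / 8) ^ (I - a) * Dt I t1 g + K0 * Θ) ^ 2) := by ring
    rw [e3]
    linarith only [t2, t3, hreal2, hw', hl']

end Pool.Agent.H35.ND
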